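import Pool.Agent.H459R3.NS.High2

/-!
Real low-frequency truncation of smooth periodic functions.
-/

set_option autoImplicit false

open MeasureTheory Set Filter Topology H459R3.NS
open scoped ContDiff

namespace Pool.Agent.Q176.ES

/-- `cos (2 π k · x)` -/
noncomputable def cs (k : K3) (x : V) : ℝ := (ee k x).re

/-- `sin (2 π k · x)` -/
noncomputable def sn (k : K3) (x : V) : ℝ := (ee k x).im

theorem sp_cs (k : K3) : SP (cs k) where
  smooth := Complex.reCLM.contDiff.comp (ee_contDiff k)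
  per := fun j x => by unfold cs; rw [ee_per k j x]

theorem sp_sn (k : K3) : SP (sn k) where
  smooth := Complex.imCLM.contDiff.comp (ee_contDiff k)
  per := fun j x => by unfold sn; rw [ee_per k j x]

theorem cs_neg (k : K3) : cs (-k) = cs k := by
  funext x; unfold cs; rw [ee_neg]; simp

theorem sn_neg (k : K3) : sn (-k) = fun x => -sn k x := by
  funext x; unfold sn; rw [ee_neg]; simp

theorem cs_add (k l : K3) (x : V) : cs (k + l) x = cs k x * cs l x - sn k x * sn l x := by
  unfold cs sn; rw [ee_add_left, Complex.mul_re]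

theorem sn_add (k l : K3) (x : V) : sn (k + l) x = cs k x * sn l x + sn k x * cs l x := by
  unfold cs sn; rw [ee_add_left, Complex.mul_im]

theorem cs_sq_sn_sq (k : K3) (x : V) : cs k x ^ 2 + sn k x ^ 2 = 1 := by
  have h := norm_ee k x
  have h2 : ‖ee k x‖ ^ 2 = 1 := by rw [h]; norm_num
  rw [← Complex.normSq_eq_norm_sq, Complex.normSq_apply] at h2
  unfold cs sn
  nlinarith

theorem hasFDerivAt_ee (k : K3) (x : V) : HasFDerivAt (ee k) (fderiv ℝ (ee k) x) x :=
  ((ee_contDiff k (n := 1)).differentiable one_ne_zero x).hasFDerivAt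

theorem pd_cs (k : K3) (j : Fin 3) (x : V) : pd j (cs k) x = -(2 * Real.pi * k j) * sn k x := by
  have h : HasFDerivAt (cs k) (Complex.reCLM.comp (fderiv ℝ (ee k) x)) x :=
    Complex.reCLM.hasFDerivAt.comp x (hasFDerivAt_ee k x)
  have h2 := pd_ee k j x
  unfold pd at h2 ⊢
  rw [h.fderiv, ContinuousLinearMap.comp_apply, h2]
  unfold sn
  simp [Complex.mul_re, Complex.mul_im]

theorem pd_sn (k : K3) (j : Fin 3) (x : V) : pd j (sn k) x = 2 * Real.pi * k j * cs k x := by
  have h : HasFDerivAt (sn k) (Complex.imCLM.comp (fderiv ℝ (ee k) x)) x :=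
    Complex.imCLM.hasFDerivAt.comp x (hasFDerivAt_ee k x)
  have h2 := pd_ee k j x
  unfold pd at h2 ⊢
  rw [h.fderiv, ContinuousLinearMap.comp_apply, h2]
  unfold cs
  simp [Complex.mul_re, Complex.mul_im]

theorem int_cs (k : K3) : ∫ x in cube, cs k x = if k = 0 then 1 else 0 := by
  have h := integral_ee k
  have h2 : (∫ x in cube, ee k x).re = ∫ x in cube, cs k x := by
    have := integral_re (𝕜 := ℂ) (f := ee k) (μ := volume.restrict cube)
      (integrableOn_cube (ee_continuous k))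
    exact this.symm
  rw [← h2, h]
  split_ifs <;> simp

theorem int_sn (k : K3) : ∫ x in cube, sn k x = 0 := by
  have h := integral_ee k
  have h2 : (∫ x in cube, ee k x).im = ∫ x in cube, sn k x := by
    have := integral_im (𝕜 := ℂ) (f := ee k) (μ := volume.restrict cube)
      (integrableOn_cube (ee_continuous k))
    exact this.symm
  rw [← h2, h]
  split_ifs <;> simp

theorem int_cs_cs (k m : K3) : ∫ x in cube, cs k x * cs m x
    = ((if k = m then 1 else 0) + (if k = -m then 1 else 0)) / 2 := by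
  have e : ∀ x, cs k x * cs m x = (cs (k + -m) x + cs (k + m) x) / 2 := by
    intro x
    rw [cs_add, cs_add, cs_neg, sn_neg]
    ring
  simp_rw [e]
  rw [integral_div, integral_add (sp_cs _).int (sp_cs _).int, int_cs, int_cs]
  congr 2
  · congr 1
    rw [← sub_eq_add_neg, sub_eq_zero]
  · congr 1
    rw [eq_neg_iff_add_eq_zero]

theorem int_sn_sn (k m : K3) : ∫ x in cube, sn k x * sn m x
    = ((if k = m then 1 else 0) - (if k = -m then 1 else 0)) / 2 := by
  have e : ∀ x, sn k x * sn m x = (cs (k + -m) x - cs (k + m) x) / 2 := by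
    intro x
    rw [cs_add, cs_add, cs_neg, sn_neg]
    ring
  simp_rw [e]
  rw [integral_div, integral_sub (sp_cs _).int (sp_cs _).int, int_cs, int_cs]
  congr 2
  · congr 1
    rw [← sub_eq_add_neg, sub_eq_zero]
  · congr 1
    rw [eq_neg_iff_add_eq_zero]

theorem int_cs_sn (k m : K3) : ∫ x in cube, cs k x * sn m x = 0 := by
  have e : ∀ x, cs k x * sn m x = (sn (k + m) x - sn (k + -m) x) / 2 := by
    intro x
    rw [sn_add, sn_add, cs_neg, sn_neg]
    ring
  simp_rw [e]
  rw [integral_div, integral_sub (sp_sn _).int (sp_sn _).int, int_sn, int_sn]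
  simp

/-- frequencies in the cube `[-n, n]³` -/
noncomputable def box (n : ℕ) : Finset K3 := Finset.Icc (fun _ => -(n : ℤ)) (fun _ => (n : ℤ))

theorem mem_box {n : ℕ} {k : K3} : k ∈ box n ↔ ∀ j, |k j| ≤ (n : ℤ) := by
  unfold box
  rw [Finset.mem_Icc, Pi.le_def, Pi.le_def, ← forall_and]
  exact forall_congr' fun j => abs_le.symm

theorem neg_mem_box {n : ℕ} {k : K3} (h : k ∈ box n) : -k ∈ box n := by
  rw [mem_box] at h ⊢
  intro j
  rw [Pi.neg_apply, abs_neg]
  exact h j

theorem card_box (n : ℕ) : ((box n).card : ℝ) = (2 * n + 1) ^ 3 := by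
  unfold box
  rw [Pi.card_Icc]
  simp only [Int.card_Icc, Finset.prod_const, Finset.card_univ, Fintype.card_fin]
  have : ((n : ℤ) + 1 - -(n : ℤ)).toNat = 2 * n + 1 := by omega
  rw [this]
  push_cast
  ring

theorem box_mono {m n : ℕ} (h : m ≤ n) : box m ⊆ box n := by
  intro k hk
  rw [mem_box] at hk ⊢
  intro j
  have := hk j
  have : (m : ℤ) ≤ n := by exact_mod_cast h
  linarith

/-- cosine coefficient -/
noncomputable def ca (f : V → ℝ) (k : K3) : ℝ := ∫ x in cube, f x * cs k x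

/-- sine coefficient -/
noncomputable def cb (f : V → ℝ) (k : K3) : ℝ := ∫ x in cube, f x * sn k x

/-- The low-frequency part. -/
noncomputable def lo (n : ℕ) (f : V → ℝ) (x : V) : ℝ :=
  ∑ k ∈ box n, (ca f k * cs k x + cb f k * sn k x)

theorem SP.const_mul' {f : V → ℝ} (hf : SP f) (c : ℝ) : SP (fun x => c * f x) where
  smooth := contDiff_const.mul hf.smooth
  per := fun j x => by simp only [hf.per j x]

theorem sp_sub {f g : V → ℝ} (hf : SP f) (hg : SP g) : SP (fun x => f x - g x) where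
  smooth := hf.smooth.sub hg.smooth
  per := fun j x => by simp only [hf.per j x, hg.per j x]

theorem sp_lo {f : V → ℝ} (n : ℕ) : SP (lo n f) := by
  unfold lo
  exact SP.sum fun k _ => (SP.const_mul' (sp_cs k) _).add (SP.const_mul' (sp_sn k) _)

theorem int_lo_mul {f g : V → ℝ} (hg : SP g) (n : ℕ) :
    ∫ x in cube, lo n f x * g x = ∑ k ∈ box n, (ca f k * ca g k + cb f k * cb g k) := by
  unfold lo
  simp_rw [Finset.sum_mul]
  rw [integral_finsetSum _ fun k _ => (((SP.const_mul' (sp_cs k) _).add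
    (SP.const_mul' (sp_sn k) _)).mul hg).int]
  refine Finset.sum_congr rfl fun k _ => ?_
  have e : ∀ x, (ca f k * cs k x + cb f k * sn k x) * g x
      = ca f k * (g x * cs k x) + cb f k * (g x * sn k x) := fun x => by ring
  simp_rw [e]
  rw [integral_add ((hg.mul (sp_cs k)).int.const_mul _) ((hg.mul (sp_sn k)).int.const_mul _),
    integral_const_mul, integral_const_mul]
  rfl

theorem ca_neg (f : V → ℝ) (k : K3) : ca f (-k) = ca f k := by
  unfold ca; rw [cs_neg]

theorem cb_neg (f : V → ℝ) (k : K3) : cb f (-k) = -cb f k := by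
  unfold cb; rw [sn_neg, ← integral_neg]; congr 1; funext x; ring

theorem ca_lo {f : V → ℝ} {n : ℕ} {m : K3} (hm : m ∈ box n) : ca (lo n f) m = ca f m := by
  have h1 : ca (lo n f) m = ∑ k ∈ box n, (ca f k * ca (cs m) k + cb f k * cb (cs m) k) :=
    int_lo_mul (sp_cs m) n
  rw [h1]
  have h2 : ∀ k, ca (cs m) k = ((if m = k then 1 else 0) + (if m = -k then 1 else 0)) / 2 :=
    fun k => int_cs_cs m k
  have h3 : ∀ k, cb (cs m) k = 0 := fun k => int_cs_sn m k
  simp_rw [h2, h3]
  have h4 : ∀ k : K3, ca f k * (((if m = k then (1:ℝ) else 0) + (if m = -k then 1 else 0)) / 2)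
      + cb f k * 0 = (if m = k then ca f k / 2 else 0) + (if -m = k then ca f k / 2 else 0) := by
    intro k
    have e2 : (if m = -k then (1:ℝ) else 0) = if -m = k then 1 else 0 :=
      if_congr neg_eq_iff_eq_neg.symm rfl rfl
    rw [e2]
    split_ifs <;> ring
  simp_rw [h4]
  rw [Finset.sum_add_distrib, Finset.sum_ite_eq, Finset.sum_ite_eq, if_pos hm,
    if_pos (neg_mem_box hm), ca_neg]
  ring

theorem cb_lo {f : V → ℝ} {n : ℕ} {m : K3} (hm : m ∈ box n) : cb (lo n f) m = cb f m := by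
  have h1 : cb (lo n f) m = ∑ k ∈ box n, (ca f k * ca (sn m) k + cb f k * cb (sn m) k) :=
    int_lo_mul (sp_sn m) n
  rw [h1]
  have h2 : ∀ k, cb (sn m) k = ((if m = k then 1 else 0) - (if m = -k then 1 else 0)) / 2 :=
    fun k => int_sn_sn m k
  have h3 : ∀ k, ca (sn m) k = 0 := fun k => by
    have := int_cs_sn k m
    unfold ca
    rw [← this]
    congr 1; funext x; ring
  simp_rw [h2, h3]
  have h4 : ∀ k : K3, ca f k * 0
      + cb f k * (((if m = k then (1:ℝ) else 0) - (if m = -k then 1 else 0)) / 2)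
      = (if m = k then cb f k / 2 else 0) + (if -m = k then -cb f k / 2 else 0) := by
    intro k
    have e2 : (if m = -k then (1:ℝ) else 0) = if -m = k then 1 else 0 :=
      if_congr neg_eq_iff_eq_neg.symm rfl rfl
    rw [e2]
    split_ifs <;> ring
  simp_rw [h4]
  rw [Finset.sum_add_distrib, Finset.sum_ite_eq, Finset.sum_ite_eq, if_pos hm,
    if_pos (neg_mem_box hm), cb_neg]
  ring

theorem lo_lo (f : V → ℝ) (n : ℕ) : lo n (lo n f) = lo n f := by
  funext x
  show ∑ k ∈ box n, _ = ∑ k ∈ box n, _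
  refine Finset.sum_congr rfl fun k hk => ?_
  rw [ca_lo hk, cb_lo hk]

theorem ca_sub {f g : V → ℝ} (hf : SP f) (hg : SP g) (k : K3) :
    ca (fun x => f x - g x) k = ca f k - ca g k := by
  unfold ca
  rw [← integral_sub (hf.mul (sp_cs k)).int (hg.mul (sp_cs k)).int]
  congr 1; funext x; ring

theorem cb_sub {f g : V → ℝ} (hf : SP f) (hg : SP g) (k : K3) :
    cb (fun x => f x - g x) k = cb f k - cb g k := by
  unfold cb
  rw [← integral_sub (hf.mul (sp_sn k)).int (hg.mul (sp_sn k)).int]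
  congr 1; funext x; ring

/-- The low-frequency part is orthogonal to the remainder. -/
theorem int_lo_hi {f g : V → ℝ} (hg : SP g) (n : ℕ) :
    ∫ x in cube, lo n f x * (g x - lo n g x) = 0 := by
  rw [int_lo_mul (sp_sub hg (sp_lo n)) n]
  refine Finset.sum_eq_zero fun k hk => ?_
  rw [ca_sub hg (sp_lo n), cb_sub hg (sp_lo n), ca_lo hk, cb_lo hk]
  ring

theorem int_lo_sq {f : V → ℝ} (n : ℕ) :
    ∫ x in cube, lo n f x ^ 2 = ∑ k ∈ box n, (ca f k ^ 2 + cb f k ^ 2) := by
  have e : ∀ x, lo n f x ^ 2 = lo n f x * lo n f x := fun x => sq _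
  simp_rw [e]
  rw [int_lo_mul (sp_lo n) n]
  refine Finset.sum_congr rfl fun k hk => ?_
  rw [ca_lo hk, cb_lo hk]
  ring

theorem int_hi_sq {f : V → ℝ} (hf : SP f) (n : ℕ) :
    ∫ x in cube, (f x - lo n f x) ^ 2
      = (∫ x in cube, f x ^ 2) - ∑ k ∈ box n, (ca f k ^ 2 + cb f k ^ 2) := by
  have e : ∀ x, (f x - lo n f x) ^ 2 = f x ^ 2 - 2 * (lo n f x * (f x - lo n f x))
      - lo n f x ^ 2 := fun x => by ring
  simp_rw [e]
  have i1 : IntegrableOn (fun x => f x ^ 2) cube := integrableOn_cube (hf.cont.pow 2)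
  have i2 : IntegrableOn (fun x => 2 * (lo n f x * (f x - lo n f x))) cube :=
    ((sp_lo n).mul (sp_sub hf (sp_lo n))).int.const_mul 2
  have i3 : IntegrableOn (fun x => lo n f x ^ 2) cube := integrableOn_cube ((sp_lo n).cont.pow 2)
  have i12 : IntegrableOn (fun x => f x ^ 2 - 2 * (lo n f x * (f x - lo n f x))) cube := i1.sub i2
  rw [integral_sub i12 i3, integral_sub i1 i2, integral_const_mul, int_lo_hi hf, int_lo_sq]
  ring

theorem int_split_sq {f : V → ℝ} (hf : SP f) (n : ℕ) :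
    ∫ x in cube, f x ^ 2 = (∫ x in cube, (f x - lo n f x) ^ 2) + ∫ x in cube, lo n f x ^ 2 := by
  rw [int_hi_sq hf, int_lo_sq]; ring

theorem int_hi_anti {f : V → ℝ} (hf : SP f) {m n : ℕ} (h : m ≤ n) :
    ∫ x in cube, (f x - lo n f x) ^ 2 ≤ ∫ x in cube, (f x - lo m f x) ^ 2 := by
  rw [int_hi_sq hf, int_hi_sq hf]
  have := Finset.sum_le_sum_of_subset_of_nonneg (f := fun k => ca f k ^ 2 + cb f k ^ 2)
    (box_mono h) fun k _ _ => by positivity
  linarith

theorem ca_pd {f : V → ℝ} (hf : SP f) (j : Fin 3) (k : K3) :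
    ca (pd j f) k = 2 * Real.pi * k j * cb f k := by
  unfold ca cb
  rw [ibp hf (sp_cs k) j, ← integral_const_mul, ← integral_neg]
  congr 1; funext x
  rw [pd_cs]; ring

theorem cb_pd {f : V → ℝ} (hf : SP f) (j : Fin 3) (k : K3) :
    cb (pd j f) k = -(2 * Real.pi * k j * ca f k) := by
  unfold ca cb
  rw [ibp hf (sp_sn k) j, ← integral_const_mul, ← integral_neg, ← integral_neg]
  congr 1; funext x
  rw [pd_sn]; ring

theorem pd_lo {f : V → ℝ} (hf : SP f) (n : ℕ) (j : Fin 3) : pd j (lo n f) = lo n (pd j f) := by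
  funext x
  have h : pd j (lo n f) x = ∑ k ∈ box n, pd j (fun x => ca f k * cs k x + cb f k * sn k x) x :=
    pd_sum (fun k _ => (SP.const_mul' (sp_cs k) _).add (SP.const_mul' (sp_sn k) _)) j x
  rw [h]
  show _ = ∑ k ∈ box n, (ca (pd j f) k * cs k x + cb (pd j f) k * sn k x)
  refine Finset.sum_congr rfl fun k _ => ?_
  have h1 : pd j (fun x => ca f k * cs k x + cb f k * sn k x) x
      = ca f k * pd j (cs k) x + cb f k * pd j (sn k) x := by
    unfold pd
    have d1 : HasFDerivAt (fun x => ca f k * cs k x + cb f k * sn k x) _ x :=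
      (((sp_cs k).diff x).hasFDerivAt.const_mul (ca f k)).add
        (((sp_sn k).diff x).hasFDerivAt.const_mul (cb f k))
    rw [d1.fderiv]
    simp
  rw [h1, pd_cs, pd_sn, ca_pd hf, cb_pd hf]
  ring

/-- Bernstein's inequality. -/
theorem abs_lo_le {f : V → ℝ} (n : ℕ) (x : V) :
    |lo n f x| ≤ Real.sqrt ((2 * n + 1) ^ 3) * Real.sqrt (∫ x in cube, lo n f x ^ 2) := by
  have h1 : ∀ k, |ca f k * cs k x + cb f k * sn k x| ≤ Real.sqrt (ca f k ^ 2 + cb f k ^ 2) := by
    intro k
    rw [← Real.sqrt_sq_eq_abs]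
    apply Real.sqrt_le_sqrt
    have := cs_sq_sn_sq k x
    nlinarith [sq_nonneg (ca f k * sn k x - cb f k * cs k x)]
  calc |lo n f x| ≤ ∑ k ∈ box n, |ca f k * cs k x + cb f k * sn k x| :=
        Finset.abs_sum_le_sum_abs _ _
    _ ≤ ∑ k ∈ box n, 1 * Real.sqrt (ca f k ^ 2 + cb f k ^ 2) :=
        Finset.sum_le_sum fun k _ => by rw [one_mul]; exact h1 k
    _ ≤ Real.sqrt (∑ k ∈ box n, 1 ^ 2) * Real.sqrt (∑ k ∈ box n,
          Real.sqrt (ca f k ^ 2 + cb f k ^ 2) ^ 2) := Real.sum_mul_le_sqrt_mul_sqrt _ _ _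
    _ = _ := by
        congr 2
        · rw [← card_box]; simp
        · rw [int_lo_sq]
          exact Finset.sum_congr rfl fun k _ => Real.sq_sqrt (by positivity)

theorem int_pd_lo_sq_le {f : V → ℝ} (hf : SP f) (n : ℕ) (j : Fin 3) :
    ∫ x in cube, pd j (lo n f) x ^ 2 ≤ (2 * Real.pi * n) ^ 2 * ∫ x in cube, lo n f x ^ 2 := by
  rw [pd_lo hf, int_lo_sq, int_lo_sq, Finset.mul_sum]
  refine Finset.sum_le_sum fun k hk => ?_
  rw [ca_pd hf, cb_pd hf]
  have h1 : |(k j : ℝ)| ≤ n := by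
    have := (mem_box.1 hk) j
    exact_mod_cast this
  have h2 : (k j : ℝ) ^ 2 ≤ (n : ℝ) ^ 2 := by
    rw [← sq_abs]
    exact pow_le_pow_left₀ (abs_nonneg _) h1 2
  have h3 : 0 ≤ (2 * Real.pi) ^ 2 * (ca f k ^ 2 + cb f k ^ 2) := by positivity
  nlinarith [mul_le_mul_of_nonneg_left h2 h3]

theorem fr_eq {f : V → ℝ} (hf : SP f) (k : K3) :
    fr f k = ((ca f k : ℝ) : ℂ) - ((cb f k : ℝ) : ℂ) * Complex.I := by
  have hI : IntegrableOn (fun x => ee (-k) x * (f x : ℂ)) cube :=
    integrableOn_cube ((ee_continuous _).mul (contDiff_ofReal hf.smooth).continuous)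
  apply Complex.ext
  · have h1 : (fr f k).re = ∫ x in cube, (ee (-k) x * (f x : ℂ)).re :=
      (integral_re (𝕜 := ℂ) hI).symm
    rw [h1]
    simp only [Complex.sub_re, Complex.ofReal_re, Complex.mul_re, Complex.ofReal_im, Complex.I_re,
      Complex.I_im, mul_zero, sub_zero, mul_one]
    unfold ca
    congr 1; funext x
    have := congrFun (cs_neg k) x
    unfold cs at this ⊢
    rw [this]; ring
  · have h1 : (fr f k).im = ∫ x in cube, (ee (-k) x * (f x : ℂ)).im :=
      (integral_im (𝕜 := ℂ) hI).symm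
    rw [h1]
    simp only [Complex.sub_im, Complex.ofReal_im, Complex.mul_im, Complex.ofReal_re, Complex.I_re,
      Complex.I_im, mul_zero, mul_one, add_zero, zero_sub, zero_add]
    unfold cb
    rw [← integral_neg]
    congr 1; funext x
    have := congrFun (sn_neg k) x
    unfold sn at this ⊢
    rw [this]; ring

theorem fr_hi {f : V → ℝ} (hf : SP f) {n : ℕ} {k : K3} (hk : k ∈ box n) :
    fr (fun x => f x - lo n f x) k = 0 := by
  rw [fr_eq (sp_sub hf (sp_lo n)), ca_sub hf (sp_lo n), cb_sub hf (sp_lo n), ca_lo hk, cb_lo hk]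
  simp

end Pool.Agent.Q176.ES
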