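import Pool.Agent.Q176.ES.F1
import Pool.Agent.W978.TQ.Cross

/-!
The time derivative of a smooth periodic solution solves the linearised equations.
-/

set_option autoImplicit false

open MeasureTheory Set Filter Topology H459R3.NS
open scoped ContDiff

namespace Pool.Agent.Q176.ES

/-- Time derivative, one-sided at `t = 0`. -/
noncomputable def tw (T : ℝ) (f : ℝ → V → ℝ) (t : ℝ) (x : V) : ℝ :=
  fderivWithin ℝ (fun z : ℝ × V => f z.1 z.2) (Ico 0 T ×ˢ univ) (t, x) (1, 0)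

/-- Smooth on `[0, T) × ℝ³`. -/
def Sm (T : ℝ) (f : ℝ → V → ℝ) : Prop :=
  ContDiffOn ℝ ∞ (fun z : ℝ × V => f z.1 z.2) (Ico 0 T ×ˢ univ)

section

variable {T : ℝ} {f : ℝ → V → ℝ}

theorem Sm.tw (hf : Sm T f) : Sm T (tw T f) := by
  have h1 : ContDiffOn ℝ ∞ (fderivWithin ℝ (fun z : ℝ × V => f z.1 z.2) (Ico 0 T ×ˢ univ))
      (Ico 0 T ×ˢ univ) := ContDiffOn.fderivWithin hf (uniqueDiff T) (by norm_cast)
  exact h1.clm_apply contDiffOn_const

theorem Sm.pd (hf : Sm T f) (j : Fin 3) : Sm T (fun s => pd j (f s)) := contDiffOn_pd hf j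

theorem tw_eq (hf : Sm T f) {t : ℝ} (ht : t ∈ Ioo 0 T) : tw T f t = dt f t := by
  funext x
  rw [dt_eq hf ht x]
  unfold tw
  rw [fderivWithin_of_mem_nhds]
  exact prod_mem_nhds (Ico_mem_nhds ht.1 ht.2) Filter.univ_mem

theorem Sm.hasDerivAt (hf : Sm T f) {t : ℝ} (ht : t ∈ Ioo 0 T) (x : V) :
    HasDerivAt (fun s => f s x) (ES.tw T f t x) t := by
  have h1 := hasDerivAt_slice (F := f) (mono_Ioo hf (by norm_cast)) ht x
  rw [tw_eq hf ht, dt_eq hf ht x]
  exact h1

theorem tw_pd (hf : Sm T f) {t : ℝ} (ht : t ∈ Ioo 0 T) (j : Fin 3) :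
    tw T (fun s => pd j (f s)) t = pd j (tw T f t) := by
  rw [tw_eq (hf.pd j) ht, tw_eq hf ht]
  funext x
  exact dt_pd hf ht j x

theorem Sm.hasDerivAt_pd (hf : Sm T f) {t : ℝ} (ht : t ∈ Ioo 0 T) (j : Fin 3) (x : V) :
    HasDerivAt (fun s => H459R3.NS.pd j (f s) x) (H459R3.NS.pd j (ES.tw T f t) x) t := by
  have h := (hf.pd j).hasDerivAt ht x
  rwa [tw_pd hf ht j] at h

theorem Sm.hasDerivAt_lap (hf : Sm T f) {t : ℝ} (ht : t ∈ Ioo 0 T) (x : V) :
    HasDerivAt (fun s => lap (f s) x) (lap (ES.tw T f t) x) t := by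
  unfold lap
  refine HasDerivAt.fun_sum fun j _ => ?_
  have h := (hf.pd j).hasDerivAt_pd ht j x
  rwa [tw_pd hf ht j] at h

theorem Sm.sp_tw (hf : Sm T f) (hp : ∀ s ∈ Ico 0 T, Per (f s)) {t : ℝ} (ht : t ∈ Ioo 0 T) :
    SP (ES.tw T f t) where
  smooth := contDiff_slice hf.tw ⟨ht.1.le, ht.2⟩
  per := fun j x => by
    refine ((hf.hasDerivAt ht (x + Pi.single j 1)).unique ?_)
    refine (hf.hasDerivAt ht x).congr_of_eventuallyEq ?_
    filter_upwards [Ico_mem_nhds ht.1 ht.2] with s hs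
    exact hp s hs j x

end

section sol

variable {ν T : ℝ} {u : ℝ → V → V} {p : ℝ → V → ℝ}

/-- The velocity of the solution: `∂ₜ u`. -/
noncomputable def vel (T : ℝ) (u : ℝ → V → V) (t : ℝ) (x : V) (i : Fin 3) : ℝ :=
  tw T (fun s y => u s y i) t x

/-- `∂ₜ² u` -/
noncomputable def acc (T : ℝ) (u : ℝ → V → V) (t : ℝ) (x : V) (i : Fin 3) : ℝ :=
  tw T (fun s y => vel T u s y i) t x

theorem sm_u (h : IsSol ν T u p) (i : Fin 3) : Sm T (fun s y => u s y i) := h.smooth_c i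

theorem sm_p (h : IsSol ν T u p) : Sm T p := h.smooth_p

theorem sm_vel (h : IsSol ν T u p) (i : Fin 3) : Sm T (fun s y => vel T u s y i) := (sm_u h i).tw

theorem sm_acc (h : IsSol ν T u p) (i : Fin 3) : Sm T (fun s y => acc T u s y i) :=
  (sm_vel h i).tw

theorem sp_vel (h : IsSol ν T u p) {t : ℝ} (ht : t ∈ Ioo 0 T) (i : Fin 3) :
    SP (fun x => vel T u t x i) :=
  (sm_u h i).sp_tw (fun s hs j x => by simp only [h.per_u s hs j x]) ht

theorem vel_eq (h : IsSol ν T u p) {t : ℝ} (ht : t ∈ Ioo 0 T) (i : Fin 3) (x : V) :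
    vel T u t x i = ν * lap (fun y => u t y i) x - conv (fun i y => u t y i) i x
      - pd i (p t) x := by
  rw [← h.dt_eq ht i x]
  exact congrFun (tw_eq (sm_u h i) ht) x

theorem div_vel (h : IsSol ν T u p) {t : ℝ} (ht : t ∈ Ioo 0 T) (x : V) :
    ∑ i, pd i (fun y => vel T u t y i) x = 0 := by
  have h1 : HasDerivAt (fun s => ∑ i, pd i (fun y => u s y i) x)
      (∑ i, pd i (fun y => vel T u t y i) x) t :=
    HasDerivAt.fun_sum fun i _ => (sm_u h i).hasDerivAt_pd ht i x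
  have h2 : HasDerivAt (fun s => ∑ i, pd i (fun y => u s y i) x) 0 t := by
    refine (hasDerivAt_const t (0 : ℝ)).congr_of_eventuallyEq ?_
    filter_upwards [Ico_mem_nhds ht.1 ht.2] with s hs
    exact h.divfree s hs x
  exact h1.unique h2

theorem acc_eq (h : IsSol ν T u p) {t : ℝ} (ht : t ∈ Ioo 0 T) (i : Fin 3) (x : V) :
    acc T u t x i = ν * lap (fun y => vel T u t y i) x
      - ∑ j, (vel T u t x j * pd j (fun y => u t y i) x
        + u t x j * pd j (fun y => vel T u t y i) x)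
      - pd i (tw T p t) x := by
  have h1 : HasDerivAt (fun s => vel T u s x i) (acc T u t x i) t := (sm_vel h i).hasDerivAt ht x
  have h2 : HasDerivAt (fun s => ν * lap (fun y => u s y i) x
      - ∑ j, u s x j * pd j (fun y => u s y i) x - pd i (p s) x)
      (ν * lap (fun y => vel T u t y i) x
      - ∑ j, (vel T u t x j * pd j (fun y => u t y i) x
        + u t x j * pd j (fun y => vel T u t y i) x)
      - pd i (tw T p t) x) t := by
    refine (((sm_u h i).hasDerivAt_lap ht x).const_mul ν |>.sub ?_).sub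
      ((sm_p h).hasDerivAt_pd ht i x)
    exact HasDerivAt.fun_sum fun j _ => ((sm_u h j).hasDerivAt ht x).mul
      ((sm_u h i).hasDerivAt_pd ht j x)
  refine h1.unique (h2.congr_of_eventuallyEq ?_)
  filter_upwards [Ioo_mem_nhds ht.1 ht.2] with s hs
  rw [vel_eq h hs i x]
  rfl

end sol

end Pool.Agent.Q176.ES
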