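import Pool.Agent.Q176.ES.F2

/-!
The high-frequency energy identity for the linearised equations.
-/

set_option autoImplicit false

open MeasureTheory Set Filter Topology H459R3.NS
open scoped ContDiff

namespace Pool.Agent.Q176.ES

open Pool.Agent.W795.TQ

/-- smooth periodic field -/
def SF (a : V → V) : Prop := ∀ i, SP fun y => a y i

/-- low-frequency part of a field -/
noncomputable def LO (n : ℕ) (v : V → V) (x : V) (i : Fin 3) : ℝ := lo n (fun y => v y i) x

/-- high-frequency part of a field -/
noncomputable def HI (n : ℕ) (v : V → V) (x : V) (i : Fin 3) : ℝ :=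
  v x i - lo n (fun y => v y i) x

theorem SF.lo {v : V → V} (n : ℕ) : SF (LO n v) := fun _ => sp_lo n

theorem SF.hi {v : V → V} (hv : SF v) (n : ℕ) : SF (HI n v) := fun i => sp_sub (hv i) (sp_lo n)

theorem pd_sub' {f g : V → ℝ} (hf : SP f) (hg : SP g) (j : Fin 3) (x : V) :
    pd j (fun y => f y - g y) x = pd j f x - pd j g x := by
  unfold pd
  have h : HasFDerivAt (fun y => f y - g y) _ x := (hf.diff x).hasFDerivAt.sub (hg.diff x).hasFDerivAt
  rw [h.fderiv]
  rfl

theorem pd_add' {f g : V → ℝ} (hf : SP f) (hg : SP g) (j : Fin 3) (x : V) :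
    pd j (fun y => f y + g y) x = pd j f x + pd j g x := by
  unfold pd
  have h : HasFDerivAt (fun y => f y + g y) _ x := (hf.diff x).hasFDerivAt.add (hg.diff x).hasFDerivAt
  rw [h.fderiv]
  rfl

theorem tr_skew {a b c : V → V} (ha : SF a) (hb : SF b) (hc : SF c) (hd : DivF a) :
    tr a b c = -tr a c b := by
  unfold tr
  rw [← Finset.sum_neg_distrib]
  refine Finset.sum_congr rfl fun i _ => ?_
  have h2 : ∀ j, ∫ x in cube, a x j * (pd j (fun y => b y i) x * c x i)
      = -(∫ x in cube, a x j * (pd j (fun y => c y i) x * b x i))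
        - ∫ x in cube, pd j (fun y => a y j) x * (c x i * b x i) := by
    intro j
    have e0 : (∫ x in cube, a x j * (pd j (fun y => b y i) x * c x i))
        = ∫ x in cube, pd j (fun y => b y i) x * (a x j * c x i) := by
      congr 1; funext x; ring
    rw [e0, ibp (hb i) ((ha j).mul (hc i)) j]
    simp_rw [pd_mul (ha j) (hc i)]
    have e : ∀ x, b x i * (a x j * pd j (fun y => c y i) x + pd j (fun y => a y j) x * c x i)
        = a x j * (pd j (fun y => c y i) x * b x i) + pd j (fun y => a y j) x * (c x i * b x i) := by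
      intro x; ring
    simp_rw [e]
    rw [integral_add ((ha j).mul (((hc i).pd j).mul (hb i))).int
      (((ha j).pd j).mul ((hc i).mul (hb i))).int]
    ring
  simp_rw [h2]
  rw [Finset.sum_sub_distrib, Finset.sum_neg_distrib,
    ← integral_finsetSum (f := fun j x => pd j (fun y => a y j) x * (c x i * b x i)) _
      fun j _ => (((ha j).pd j).mul ((hc i).mul (hb i))).int]
  have h3 : ∀ x, ∑ j, pd j (fun y => a y j) x * (c x i * b x i) = 0 := by
    intro x
    rw [← Finset.sum_mul, hd x, zero_mul]
  simp_rw [h3]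
  simp

theorem tr_add1 {v a a' b c : V → V} (hv : ∀ x i, v x i = a x i + a' x i) (ha : SF a)
    (ha' : SF a') (hb : SF b) (hc : SF c) : tr v b c = tr a b c + tr a' b c := by
  unfold tr
  rw [← Finset.sum_add_distrib]
  refine Finset.sum_congr rfl fun i _ => ?_
  rw [← Finset.sum_add_distrib]
  refine Finset.sum_congr rfl fun j _ => ?_
  rw [← integral_add ((ha j).mul (((hb i).pd j).mul (hc i))).int
    ((ha' j).mul (((hb i).pd j).mul (hc i))).int]
  congr 1; funext x
  rw [hv]; ring

theorem tr_add2 {v a b b' c : V → V} (hv : ∀ x i, v x i = b x i + b' x i) (ha : SF a)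
    (hb : SF b) (hb' : SF b') (hc : SF c) : tr a v c = tr a b c + tr a b' c := by
  unfold tr
  rw [← Finset.sum_add_distrib]
  refine Finset.sum_congr rfl fun i _ => ?_
  rw [← Finset.sum_add_distrib]
  refine Finset.sum_congr rfl fun j _ => ?_
  rw [← integral_add ((ha j).mul (((hb i).pd j).mul (hc i))).int
    ((ha j).mul (((hb' i).pd j).mul (hc i))).int]
  congr 1; funext x
  have : (fun y => v y i) = fun y => b y i + b' y i := funext fun y => hv y i
  rw [this, pd_add' (hb i) (hb' i)]; ring

theorem ca_sum {f : Fin 3 → V → ℝ} (hf : ∀ i, SP (f i)) (k : K3) :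
    ∑ i, ca (f i) k = ca (fun x => ∑ i, f i x) k := by
  unfold ca
  rw [← integral_finsetSum _ fun i _ => ((hf i).mul (sp_cs k)).int]
  congr 1; funext x
  rw [Finset.sum_mul]

theorem cb_sum {f : Fin 3 → V → ℝ} (hf : ∀ i, SP (f i)) (k : K3) :
    ∑ i, cb (f i) k = cb (fun x => ∑ i, f i x) k := by
  unfold cb
  rw [← integral_finsetSum _ fun i _ => ((hf i).mul (sp_sn k)).int]
  congr 1; funext x
  rw [Finset.sum_mul]

theorem div_lo {v : V → V} (hv : SF v) (hd : DivF v) (n : ℕ) : DivF (LO n v) := by
  intro x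
  have h1 : ∀ i, pd i (fun y => LO n v y i) x = lo n (pd i (fun y => v y i)) x := fun i =>
    congrFun (pd_lo (hv i) n i) x
  simp_rw [h1]
  unfold lo
  rw [Finset.sum_comm]
  refine Finset.sum_eq_zero fun k _ => ?_
  rw [Finset.sum_add_distrib, ← Finset.sum_mul, ← Finset.sum_mul,
    ca_sum (fun i => (hv i).pd i), cb_sum (fun i => (hv i).pd i)]
  have : (fun x => ∑ i, pd i (fun y => v y i) x) = fun _ => 0 := funext hd
  rw [this]
  simp [ca, cb]

theorem div_hi {v : V → V} (hv : SF v) (hd : DivF v) (n : ℕ) : DivF (HI n v) := by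
  intro x
  have h1 : ∀ i, pd i (fun y => HI n v y i) x
      = pd i (fun y => v y i) x - pd i (fun y => LO n v y i) x := fun i =>
    pd_sub' (hv i) (sp_lo n) i x
  simp_rw [h1]
  rw [Finset.sum_sub_distrib, hd x, div_lo hv hd n x, sub_zero]

theorem split_hi (n : ℕ) (v : V → V) (x : V) (i : Fin 3) : v x i = HI n v x i + LO n v x i := by
  unfold HI LO; ring

theorem int_grad_hi {f : V → ℝ} (hf : SP f) (n : ℕ) (j : Fin 3) :
    ∫ x in cube, pd j f x * pd j (fun y => f y - lo n f y) x
      = ∫ x in cube, pd j (fun y => f y - lo n f y) x ^ 2 := by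
  have e : ∀ x, pd j (fun y => f y - lo n f y) x = pd j f x - lo n (pd j f) x := by
    intro x
    rw [pd_sub' hf (sp_lo n), pd_lo hf]
  simp_rw [e]
  have e2 : ∀ x, pd j f x * (pd j f x - lo n (pd j f) x)
      = (pd j f x - lo n (pd j f) x) ^ 2 + lo n (pd j f) x * (pd j f x - lo n (pd j f) x) :=
    fun x => by ring
  simp_rw [e2]
  have i1 : IntegrableOn (fun x => (pd j f x - lo n (pd j f) x) ^ 2) cube :=
    integrableOn_cube ((sp_sub (hf.pd j) (sp_lo n)).cont.pow 2)
  have i2 : IntegrableOn (fun x => lo n (pd j f) x * (pd j f x - lo n (pd j f) x)) cube :=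
    ((sp_lo n).mul (sp_sub (hf.pd j) (sp_lo n))).int
  rw [integral_add i1 i2, int_lo_hi (hf.pd j), add_zero]

/-- The energy identity for the high-frequency part of a solution of the linearised equation. -/
theorem lin_id {ν : ℝ} {u v a : V → V} {q : V → ℝ} (hu : SF u) (hv : SF v) (hdu : DivF u)
    (hdv : DivF v) (hq : SP q) (n : ℕ)
    (ha : ∀ x i, a x i = ν * lap (fun y => v y i) x
      - ∑ j, (v x j * pd j (fun y => u y i) x + u x j * pd j (fun y => v y i) x) - pd i q x) :
    ∑ i, ∫ x in cube, a x i * HI n v x i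
      = -(ν * enstrophy (HI n v)) - tr (HI n v) u (HI n v) + tr (LO n v) (HI n v) u
        + tr u (HI n v) (LO n v) := by
  set φ := HI n v with hφ
  set r := LO n v with hr
  have sφ : SF φ := hv.hi n
  have sr : SF r := SF.lo n
  have dφ : DivF φ := div_hi hv hdv n
  have dr : DivF r := div_lo hv hdv n
  have e1 : ∀ i, ∫ x in cube, a x i * φ x i
      = ν * (∫ x in cube, lap (fun y => v y i) x * φ x i)
        - (∑ j, ∫ x in cube, v x j * (pd j (fun y => u y i) x * φ x i))
        - (∑ j, ∫ x in cube, u x j * (pd j (fun y => v y i) x * φ x i))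
        - ∫ x in cube, φ x i * pd i q x := by
    intro i
    have e : ∀ x, a x i * φ x i
        = ν * (lap (fun y => v y i) x * φ x i)
          - ∑ j, v x j * (pd j (fun y => u y i) x * φ x i)
          - ∑ j, u x j * (pd j (fun y => v y i) x * φ x i) - φ x i * pd i q x := by
      intro x
      rw [ha, Finset.sum_add_distrib, sub_mul, sub_mul, add_mul, Finset.sum_mul, Finset.sum_mul]
      have a1 : ∀ j, v x j * pd j (fun y => u y i) x * φ x i
          = v x j * (pd j (fun y => u y i) x * φ x i) := fun j => by ring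
      have a2 : ∀ j, u x j * pd j (fun y => v y i) x * φ x i
          = u x j * (pd j (fun y => v y i) x * φ x i) := fun j => by ring
      simp_rw [a1, a2]
      ring
    simp_rw [e]
    have i1 : IntegrableOn (fun x => ν * (lap (fun y => v y i) x * φ x i)) cube :=
      ((hv i).lap.mul (sφ i)).int.const_mul ν
    have i2 : IntegrableOn (fun x => ∑ j, v x j * (pd j (fun y => u y i) x * φ x i)) cube :=
      (SP.sum fun j _ => (hv j).mul (((hu i).pd j).mul (sφ i))).int
    have i3 : IntegrableOn (fun x => ∑ j, u x j * (pd j (fun y => v y i) x * φ x i)) cube :=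
      (SP.sum fun j _ => (hu j).mul (((hv i).pd j).mul (sφ i))).int
    have i4 : IntegrableOn (fun x => φ x i * pd i q x) cube := ((sφ i).mul (hq.pd i)).int
    have i12 : IntegrableOn (fun x => ν * (lap (fun y => v y i) x * φ x i)
        - ∑ j, v x j * (pd j (fun y => u y i) x * φ x i)) cube := i1.sub i2
    have i123 : IntegrableOn (fun x => ν * (lap (fun y => v y i) x * φ x i)
        - ∑ j, v x j * (pd j (fun y => u y i) x * φ x i)
        - ∑ j, u x j * (pd j (fun y => v y i) x * φ x i)) cube := i12.sub i3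
    rw [integral_sub i123 i4, integral_sub i12 i3, integral_sub i1 i2, integral_const_mul,
      integral_finsetSum _ fun j _ => ((hv j).mul (((hu i).pd j).mul (sφ i))).int,
      integral_finsetSum _ fun j _ => ((hu j).mul (((hv i).pd j).mul (sφ i))).int]
  simp_rw [e1]
  rw [Finset.sum_sub_distrib, Finset.sum_sub_distrib, Finset.sum_sub_distrib, ← Finset.mul_sum]
  have t1 : ∑ i, ∑ j, ∫ x in cube, v x j * (pd j (fun y => u y i) x * φ x i) = tr v u φ := rfl
  have t2 : ∑ i, ∑ j, ∫ x in cube, u x j * (pd j (fun y => v y i) x * φ x i) = tr u v φ := rfl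
  have t3 : ∑ i, ∫ x in cube, φ x i * pd i q x = 0 :=
    int_press (v := fun i y => φ y i) sφ dφ hq
  have t4 : ∑ i, ∫ x in cube, lap (fun y => v y i) x * φ x i = -enstrophy φ := by
    unfold enstrophy
    rw [← Finset.sum_neg_distrib]
    refine Finset.sum_congr rfl fun i _ => ?_
    rw [int_lap_mul (hv i) (sφ i)]
    congr 1
    exact Finset.sum_congr rfl fun j _ => int_grad_hi (hv i) n j
  rw [t1, t2, t3, t4]
  have s1 : tr v u φ = tr φ u φ + tr r u φ :=
    tr_add1 (fun x i => split_hi n v x i) sφ sr hu sφ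
  have s2 : tr u v φ = tr u φ φ + tr u r φ :=
    tr_add2 (fun x i => split_hi n v x i) hu sφ sr sφ
  have s3 : tr r u φ = -tr r φ u := tr_skew sr hu sφ dr
  have s4 : tr u φ φ = 0 := by
    have := tr_skew hu sφ sφ hdu
    linarith
  have s5 : tr u r φ = -tr u φ r := tr_skew hu sr sφ hdu
  rw [s1, s2, s3, s4, s5]
  ring

theorem abs_tr_le {a b c : V → V} (ha : SF a) (hb : SF b) (hc : SF c) {R : ℝ}
    (hR : ∀ j x, |a x j| ≤ R) :
    |tr a b c| ≤ 9 * R * (Real.sqrt (enstrophy b) * Real.sqrt (energy c)) := by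
  have hR0 : 0 ≤ R := (abs_nonneg _).trans (hR 0 0)
  unfold tr
  have h1 : ∀ i j, |∫ x in cube, a x j * (pd j (fun y => b y i) x * c x i)|
      ≤ R * (Real.sqrt (enstrophy b) * Real.sqrt (energy c)) := by
    intro i j
    have h2 : |∫ x in cube, (a x j * pd j (fun y => b y i) x) * c x i|
        ≤ nrm (fun x => a x j * pd j (fun y => b y i) x) * nrm (fun x => c x i) :=
      abs_int_mul_le ((ha j).mul ((hb i).pd j)).cont (hc i).cont
    have e : (∫ x in cube, a x j * (pd j (fun y => b y i) x * c x i))
        = ∫ x in cube, (a x j * pd j (fun y => b y i) x) * c x i := by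
      congr 1; funext x; ring
    rw [e]
    refine h2.trans ?_
    have h3 : nrm (fun x => a x j * pd j (fun y => b y i) x)
        ≤ R * nrm (pd j (fun y => b y i)) :=
      nrm_mul_le (ha j).cont ((hb i).pd j).cont (fun x => hR j x)
    have h4 : nrm (pd j (fun y => b y i)) ≤ Real.sqrt (enstrophy b) := by
      unfold nrm
      refine Real.sqrt_le_sqrt ?_
      refine (Finset.single_le_sum (f := fun j => ∫ x in cube, pd j (fun y => b y i) x ^ 2)
        (fun _ _ => integral_nonneg fun _ => sq_nonneg _) (Finset.mem_univ j)).trans ?_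
      exact Finset.single_le_sum (f := fun i => ∑ j, ∫ x in cube, pd j (fun y => b y i) x ^ 2)
        (fun _ _ => Finset.sum_nonneg fun _ _ => integral_nonneg fun _ => sq_nonneg _)
        (Finset.mem_univ i)
    have h5 : nrm (fun x => c x i) ≤ Real.sqrt (energy c) := by
      unfold nrm
      refine Real.sqrt_le_sqrt ?_
      exact Finset.single_le_sum (f := fun i => ∫ x in cube, c x i ^ 2)
        (fun _ _ => integral_nonneg fun _ => sq_nonneg _) (Finset.mem_univ i)
    calc _ ≤ (R * nrm (pd j (fun y => b y i))) * nrm (fun x => c x i) :=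
          mul_le_mul_of_nonneg_right h3 (nrm_nonneg _)
      _ ≤ (R * Real.sqrt (enstrophy b)) * Real.sqrt (energy c) := by
          have := nrm_nonneg (fun x => c x i)
          gcongr
      _ = _ := by ring
  calc |∑ i, ∑ j, ∫ x in cube, a x j * (pd j (fun y => b y i) x * c x i)|
      ≤ ∑ i : Fin 3, ∑ j : Fin 3, |∫ x in cube, a x j * (pd j (fun y => b y i) x * c x i)| :=
        (Finset.abs_sum_le_sum_abs _ _).trans
          (Finset.sum_le_sum fun i _ => Finset.abs_sum_le_sum_abs _ _)
    _ ≤ ∑ i : Fin 3, ∑ j : Fin 3, R * (Real.sqrt (enstrophy b) * Real.sqrt (energy c)) :=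
        Finset.sum_le_sum fun i _ => Finset.sum_le_sum fun j _ => h1 i j
    _ = _ := by
        simp only [Finset.sum_const, Finset.card_univ, Fintype.card_fin, nsmul_eq_mul]
        push_cast; ring

theorem abs_tr_le' {a b c : V → V} (ha : SF a) (hb : SF b) (hc : SF c) {R : ℝ}
    (hR : ∀ j x, |c x j| ≤ R) :
    |tr a b c| ≤ 9 * R * (Real.sqrt (enstrophy b) * Real.sqrt (energy a)) := by
  have hR0 : 0 ≤ R := (abs_nonneg _).trans (hR 0 0)
  unfold tr
  have h1 : ∀ i j, |∫ x in cube, a x j * (pd j (fun y => b y i) x * c x i)|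
      ≤ R * (Real.sqrt (enstrophy b) * Real.sqrt (energy a)) := by
    intro i j
    have h2 : |∫ x in cube, (c x i * pd j (fun y => b y i) x) * a x j|
        ≤ nrm (fun x => c x i * pd j (fun y => b y i) x) * nrm (fun x => a x j) :=
      abs_int_mul_le ((hc i).mul ((hb i).pd j)).cont (ha j).cont
    have e : (∫ x in cube, a x j * (pd j (fun y => b y i) x * c x i))
        = ∫ x in cube, (c x i * pd j (fun y => b y i) x) * a x j := by
      congr 1; funext x; ring
    rw [e]
    refine h2.trans ?_
    have h3 : nrm (fun x => c x i * pd j (fun y => b y i) x)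
        ≤ R * nrm (pd j (fun y => b y i)) :=
      nrm_mul_le (hc i).cont ((hb i).pd j).cont (fun x => hR i x)
    have h4 : nrm (pd j (fun y => b y i)) ≤ Real.sqrt (enstrophy b) := by
      unfold nrm
      refine Real.sqrt_le_sqrt ?_
      refine (Finset.single_le_sum (f := fun j => ∫ x in cube, pd j (fun y => b y i) x ^ 2)
        (fun _ _ => integral_nonneg fun _ => sq_nonneg _) (Finset.mem_univ j)).trans ?_
      exact Finset.single_le_sum (f := fun i => ∑ j, ∫ x in cube, pd j (fun y => b y i) x ^ 2)
        (fun _ _ => Finset.sum_nonneg fun _ _ => integral_nonneg fun _ => sq_nonneg _)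
        (Finset.mem_univ i)
    have h5 : nrm (fun x => a x j) ≤ Real.sqrt (energy a) := by
      unfold nrm
      refine Real.sqrt_le_sqrt ?_
      exact Finset.single_le_sum (f := fun i => ∫ x in cube, a x i ^ 2)
        (fun _ _ => integral_nonneg fun _ => sq_nonneg _) (Finset.mem_univ j)
    calc _ ≤ (R * nrm (pd j (fun y => b y i))) * nrm (fun x => a x j) :=
          mul_le_mul_of_nonneg_right h3 (nrm_nonneg _)
      _ ≤ (R * Real.sqrt (enstrophy b)) * Real.sqrt (energy a) := by
          have := nrm_nonneg (fun x => a x j)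
          gcongr
      _ = _ := by ring
  calc |∑ i, ∑ j, ∫ x in cube, a x j * (pd j (fun y => b y i) x * c x i)|
      ≤ ∑ i : Fin 3, ∑ j : Fin 3, |∫ x in cube, a x j * (pd j (fun y => b y i) x * c x i)| :=
        (Finset.abs_sum_le_sum_abs _ _).trans
          (Finset.sum_le_sum fun i _ => Finset.abs_sum_le_sum_abs _ _)
    _ ≤ ∑ i : Fin 3, ∑ j : Fin 3, R * (Real.sqrt (enstrophy b) * Real.sqrt (energy a)) :=
        Finset.sum_le_sum fun i _ => Finset.sum_le_sum fun j _ => h1 i j
    _ = _ := by
        simp only [Finset.sum_const, Finset.card_univ, Fintype.card_fin, nsmul_eq_mul]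
        push_cast; ring

end Pool.Agent.Q176.ES
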