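import Pool.Agent.Q176.ES.F3

/-!
The high-frequency energy inequality for `∂ₜ u`.
-/

set_option autoImplicit false

open MeasureTheory Set Filter Topology H459R3.NS
open scoped ContDiff

namespace Pool.Agent.Q176.ES

open Pool.Agent.W795.TQ

section

variable {T : ℝ} {f : ℝ → V → ℝ}

theorem hd_int_mul (hf : Sm T f) {w : V → ℝ} (hw : ContDiff ℝ ∞ w) {t : ℝ} (ht : t ∈ Ioo 0 T) :
    HasDerivAt (fun s => ∫ x in cube, f s x * w x) (∫ x in cube, tw T f t x * w x) t := by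
  have hw1 : ContDiffOn ℝ 1 (fun z : ℝ × V => w z.2) (Ioo 0 T ×ˢ univ) :=
    ((hw.of_le (by norm_cast)).comp contDiff_snd).contDiffOn
  have hF : ContDiffOn ℝ 1 (fun z : ℝ × V => f z.1 z.2 * w z.2) (Ioo 0 T ×ˢ univ) :=
    (mono_Ioo hf (by norm_cast)).mul hw1
  have key := hasDerivAt_int (F := fun s x => f s x * w x) hF ht
  refine key.congr_deriv ?_
  congr 1
  funext x
  exact ((hf.hasDerivAt ht x).mul_const (w x)).deriv

theorem hd_int_sq (hf : Sm T f) {t : ℝ} (ht : t ∈ Ioo 0 T) :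
    HasDerivAt (fun s => ∫ x in cube, f s x ^ 2) (2 * ∫ x in cube, f t x * tw T f t x) t := by
  have hF : ContDiffOn ℝ 1 (fun z : ℝ × V => f z.1 z.2 ^ 2) (Ioo 0 T ×ˢ univ) :=
    (mono_Ioo hf (by norm_cast)).pow 2
  have key := hasDerivAt_int (F := fun s x => f s x ^ 2) hF ht
  refine key.congr_deriv ?_
  rw [← integral_const_mul]
  congr 1
  funext x
  have h3 : HasDerivAt (fun s => f s x ^ 2) _ t := (hf.hasDerivAt ht x).pow 2
  rw [h3.deriv]
  push_cast
  ring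

theorem hd_hi (hf : Sm T f) (hp : ∀ s ∈ Ioo 0 T, SP (f s)) {t : ℝ} (ht : t ∈ Ioo 0 T)
    (hg : SP (tw T f t)) (n : ℕ) :
    HasDerivAt (fun s => ∫ x in cube, (f s x - lo n (f s) x) ^ 2)
      (2 * ∫ x in cube, tw T f t x * (f t x - lo n (f t) x)) t := by
  have h1 : HasDerivAt (fun s => (∫ x in cube, f s x ^ 2)
      - ∑ k ∈ box n, (ca (f s) k ^ 2 + cb (f s) k ^ 2))
      (2 * (∫ x in cube, f t x * tw T f t x) - ∑ k ∈ box n,
        (2 * (ca (f t) k * ca (tw T f t) k) + 2 * (cb (f t) k * cb (tw T f t) k))) t := by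
    refine (hd_int_sq hf ht).sub (HasDerivAt.fun_sum fun k _ => ?_)
    have a1 : HasDerivAt (fun s => ca (f s) k) (ca (tw T f t) k) t :=
      hd_int_mul hf (sp_cs k).smooth ht
    have a2 : HasDerivAt (fun s => cb (f s) k) (cb (tw T f t) k) t :=
      hd_int_mul hf (sp_sn k).smooth ht
    refine ((a1.pow 2).add (a2.pow 2)).congr_deriv ?_
    push_cast
    ring
  have h2 : HasDerivAt (fun s => ∫ x in cube, (f s x - lo n (f s) x) ^ 2)
      (2 * (∫ x in cube, f t x * tw T f t x) - ∑ k ∈ box n,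
        (2 * (ca (f t) k * ca (tw T f t) k) + 2 * (cb (f t) k * cb (tw T f t) k))) t := by
    refine h1.congr_of_eventuallyEq ?_
    filter_upwards [Ioo_mem_nhds ht.1 ht.2] with s hs
    exact int_hi_sq (hp s hs) n
  refine h2.congr_deriv ?_
  have e : ∀ x, tw T f t x * (f t x - lo n (f t) x)
      = f t x * tw T f t x - lo n (f t) x * tw T f t x := fun x => by ring
  simp_rw [e]
  rw [integral_sub ((hp t ht).mul hg).int ((sp_lo n).mul hg).int, int_lo_mul hg n, mul_sub,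
    Finset.mul_sum]
  congr 1
  exact Finset.sum_congr rfl fun k _ => by ring

end

section sol

variable {ν T : ℝ} {u : ℝ → V → V} {p : ℝ → V → ℝ}

theorem sp_acc (h : IsSol ν T u p) {t : ℝ} (ht : t ∈ Ioo 0 T) (i : Fin 3) :
    SP (fun x => acc T u t x i) where
  smooth := contDiff_slice (sm_acc h i) ⟨ht.1.le, ht.2⟩
  per := fun j x => by
    refine (((sm_vel h i).hasDerivAt ht (x + Pi.single j 1)).unique ?_)
    refine ((sm_vel h i).hasDerivAt ht x).congr_of_eventuallyEq ?_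
    filter_upwards [Ioo_mem_nhds ht.1 ht.2] with s hs
    exact (sp_vel h hs i).per j x

/-- The energy of the high-frequency part of `∂ₜ u`. -/
noncomputable def EH (T : ℝ) (u : ℝ → V → V) (n : ℕ) (t : ℝ) : ℝ := energy (HI n (vel T u t))

/-- its rate of change -/
noncomputable def DH (T : ℝ) (u : ℝ → V → V) (n : ℕ) (t : ℝ) : ℝ :=
  2 * ∑ i, ∫ x in cube, acc T u t x i * HI n (vel T u t) x i

theorem EH_hasDerivAt (h : IsSol ν T u p) (n : ℕ) {t : ℝ} (ht : t ∈ Ioo 0 T) :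
    HasDerivAt (EH T u n) (DH T u n t) t := by
  unfold DH
  rw [Finset.mul_sum]
  show HasDerivAt (fun s => ∑ i, ∫ x in cube, HI n (vel T u s) x i ^ 2) _ t
  refine HasDerivAt.fun_sum fun i _ => ?_
  exact hd_hi (sm_vel h i) (fun s hs => sp_vel h hs i) ht (sp_acc h ht i) n

theorem SF_u (h : IsSol ν T u p) {t : ℝ} (ht : t ∈ Ioo 0 T) : SF (u t) := fun i =>
  h.sp ⟨ht.1.le, ht.2⟩ i

theorem SF_vel (h : IsSol ν T u p) {t : ℝ} (ht : t ∈ Ioo 0 T) : SF (vel T u t) := sp_vel h ht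

theorem sp_twp (h : IsSol ν T u p) {t : ℝ} (ht : t ∈ Ioo 0 T) : SP (tw T p t) :=
  (sm_p h).sp_tw (fun s hs => h.per_p s hs) ht

theorem DH_eq (h : IsSol ν T u p) (n : ℕ) {t : ℝ} (ht : t ∈ Ioo 0 T) :
    DH T u n t = 2 * (-(ν * enstrophy (HI n (vel T u t)))
      - tr (HI n (vel T u t)) (u t) (HI n (vel T u t))
      + tr (LO n (vel T u t)) (HI n (vel T u t)) (u t)
      + tr (u t) (HI n (vel T u t)) (LO n (vel T u t))) := by
  unfold DH
  rw [lin_id (SF_u h ht) (SF_vel h ht) (h.divfree t ⟨ht.1.le, ht.2⟩) (div_vel h ht)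
    (sp_twp h ht) n (fun x i => acc_eq h ht i x)]

/-- The differential inequality. -/
theorem DH_le (h : IsSol ν T u p) (hν : 0 < ν) (n : ℕ) {t : ℝ} (ht : t ∈ Ioo 0 T) {δ Λ R : ℝ}
    (hδ : 0 < δ) (hR : ∀ j x, |LO n (vel T u t) x j| ≤ R)
    (hform : -tr (HI n (vel T u t)) (u t) (HI n (vel T u t))
      ≤ (1 - δ) * ν * enstrophy (HI n (vel T u t)) + Λ * energy (HI n (vel T u t))) :
    DH T u n t ≤ 2 * Λ * EH T u n t + 162 * R ^ 2 * energy (u 0) / (δ * ν) := by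
  rw [DH_eq h n ht]
  have hφ := (SF_vel h ht).hi n
  have hr : SF (LO n (vel T u t)) := SF.lo n
  have h1 := (abs_le.1 (abs_tr_le hr hφ (SF_u h ht) hR)).2
  have h2 := (abs_le.1 (abs_tr_le' (SF_u h ht) hφ hr hR)).2
  have hE : energy (u t) ≤ energy (u 0) := h.energy_le hν ⟨ht.1.le, ht.2⟩
  have hR0 : 0 ≤ R := (abs_nonneg _).trans (hR 0 0)
  set y := enstrophy (HI n (vel T u t)) with hy
  have hy0 : 0 ≤ y := enstrophy_nonneg _
  set e := energy (u t) with he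
  have he0 : 0 ≤ e := energy_nonneg _
  set E0 := energy (u 0) with hE0
  unfold EH
  set F := energy (HI n (vel T u t)) with hF
  have hsy := Real.sq_sqrt hy0
  have hse := Real.sq_sqrt he0
  set a := Real.sqrt y with ha
  set b := Real.sqrt e with hb
  have hδν : 0 < δ * ν := mul_pos hδ hν
  -- 18 R a b ≤ δ ν a² + 81 R² b² / (δ ν)
  have h3 : 18 * R * (a * b) ≤ δ * ν * a ^ 2 + 81 * R ^ 2 * b ^ 2 / (δ * ν) := by
    have h4 : 0 ≤ (δ * ν * a - 9 * R * b) ^ 2 / (δ * ν) := by positivity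
    have e5 : (δ * ν * a - 9 * R * b) ^ 2 / (δ * ν)
        = δ * ν * a ^ 2 - 18 * R * (a * b) + 81 * R ^ 2 * b ^ 2 / (δ * ν) := by
      field_simp; ring
    linarith
  have h6 : 81 * R ^ 2 * b ^ 2 / (δ * ν) ≤ 81 * R ^ 2 * E0 / (δ * ν) := by
    rw [hse]; gcongr
  have h7 : 162 * R ^ 2 * E0 / (δ * ν) = 2 * (81 * R ^ 2 * E0 / (δ * ν)) := by ring
  rw [h7]
  nlinarith

end sol

end Pool.Agent.Q176.ES
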