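import Pool.Agent.Q176.ES.F4

/-!
Bounds of the low-frequency part of `∂ₜ u` by the energy.
-/

set_option autoImplicit false

open MeasureTheory Set Filter Topology H459R3.NS
open scoped ContDiff

namespace Pool.Agent.Q176.ES

open Pool.Agent.W795.TQ

theorem nrm_le_energy (v : V → V) (i : Fin 3) : nrm (fun y => v y i) ≤ Real.sqrt (energy v) := by
  unfold nrm
  refine Real.sqrt_le_sqrt ?_
  exact Finset.single_le_sum (f := fun i => ∫ x in cube, v x i ^ 2)
    (fun _ _ => integral_nonneg fun _ => sq_nonneg _) (Finset.mem_univ i)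

theorem nrm_pd_lo_le {f : V → ℝ} (hf : SP f) (n : ℕ) (j : Fin 3) :
    nrm (pd j (lo n f)) ≤ 2 * Real.pi * n * nrm (lo n f) := by
  unfold nrm
  have h := int_pd_lo_sq_le hf n j
  have h2 : 0 ≤ 2 * Real.pi * n := by positivity
  calc Real.sqrt (∫ x in cube, pd j (lo n f) x ^ 2)
      ≤ Real.sqrt ((2 * Real.pi * n) ^ 2 * ∫ x in cube, lo n f x ^ 2) := Real.sqrt_le_sqrt h
    _ = _ := by rw [Real.sqrt_mul (by positivity), Real.sqrt_sq h2]

theorem nrm_pd_pd_lo_le {f : V → ℝ} (hf : SP f) (n : ℕ) (j : Fin 3) :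
    nrm (pd j (pd j (lo n f))) ≤ (2 * Real.pi * n) ^ 2 * nrm (lo n f) := by
  have e : pd j (pd j (lo n f)) = pd j (lo n (pd j f)) := by rw [pd_lo hf]
  rw [e]
  refine (nrm_pd_lo_le (hf.pd j) n j).trans ?_
  rw [← pd_lo hf]
  have h2 : 0 ≤ 2 * Real.pi * n := by positivity
  calc 2 * Real.pi * n * nrm (pd j (lo n f)) ≤ 2 * Real.pi * n * (2 * Real.pi * n * nrm (lo n f)) :=
        mul_le_mul_of_nonneg_left (nrm_pd_lo_le hf n j) h2
    _ = _ := by ring

theorem abs_lo_le' {f : V → ℝ} (n : ℕ) (x : V) :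
    |lo n f x| ≤ Real.sqrt ((2 * n + 1) ^ 3) * nrm (lo n f) := abs_lo_le n x

theorem abs_pd_lo_le {f : V → ℝ} (hf : SP f) (n : ℕ) (j : Fin 3) (x : V) :
    |pd j (lo n f) x| ≤ Real.sqrt ((2 * n + 1) ^ 3) * (2 * Real.pi * n * nrm (lo n f)) := by
  rw [pd_lo hf]
  refine (abs_lo_le' n x).trans ?_
  rw [← pd_lo hf]
  exact mul_le_mul_of_nonneg_left (nrm_pd_lo_le hf n j) (Real.sqrt_nonneg _)

theorem abs_gip_lo_le {a v : V → V} (ha : SF a) (hv : SF v) (n : ℕ) :
    |gip a (LO n v)| ≤ 9 * ((2 * Real.pi * n) ^ 2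
      * (Real.sqrt (energy a) * Real.sqrt (energy (LO n v)))) := by
  unfold gip
  have h1 : ∀ i j, |∫ x in cube, pd j (fun y => a y i) x * pd j (fun y => LO n v y i) x|
      ≤ (2 * Real.pi * n) ^ 2 * (Real.sqrt (energy a) * Real.sqrt (energy (LO n v))) := by
    intro i j
    have hb : SP (fun y => LO n v y i) := sp_lo n
    rw [ibp (ha i) (hb.pd j) j, abs_neg]
    refine (abs_int_mul_le (ha i).cont ((hb.pd j).pd j).cont).trans ?_
    have h2 := nrm_pd_pd_lo_le (hv i) n j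
    have h3 := nrm_le_energy a i
    have h4 : nrm (lo n fun y => v y i) ≤ Real.sqrt (energy (LO n v)) := nrm_le_energy (LO n v) i
    calc nrm (fun y => a y i) * nrm (pd j (pd j fun y => LO n v y i))
        ≤ Real.sqrt (energy a) * ((2 * Real.pi * n) ^ 2 * Real.sqrt (energy (LO n v))) := by
          refine mul_le_mul h3 (h2.trans ?_) (nrm_nonneg _) (Real.sqrt_nonneg _)
          exact mul_le_mul_of_nonneg_left h4 (by positivity)
      _ = _ := by ring
  calc |∑ i, ∑ j, ∫ x in cube, pd j (fun y => a y i) x * pd j (fun y => LO n v y i) x|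
      ≤ ∑ i : Fin 3, ∑ j : Fin 3,
          |∫ x in cube, pd j (fun y => a y i) x * pd j (fun y => LO n v y i) x| :=
        (Finset.abs_sum_le_sum_abs _ _).trans
          (Finset.sum_le_sum fun i _ => Finset.abs_sum_le_sum_abs _ _)
    _ ≤ ∑ i : Fin 3, ∑ j : Fin 3,
          (2 * Real.pi * n) ^ 2 * (Real.sqrt (energy a) * Real.sqrt (energy (LO n v))) :=
        Finset.sum_le_sum fun i _ => Finset.sum_le_sum fun j _ => h1 i j
    _ = _ := by
        simp only [Finset.sum_const, Finset.card_univ, Fintype.card_fin, nsmul_eq_mul]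
        push_cast; ring

theorem abs_tr_lo_le {a v : V → V} (ha : SF a) (hv : SF v) (n : ℕ) :
    |tr a (LO n v) a| ≤ 9 * (Real.sqrt ((2 * n + 1) ^ 3) * (2 * Real.pi * n)
      * Real.sqrt (energy (LO n v)) * energy a) := by
  unfold tr
  set B := Real.sqrt ((2 * n + 1) ^ 3) * (2 * Real.pi * n * Real.sqrt (energy (LO n v))) with hB
  have hB0 : 0 ≤ B := by positivity
  have h1 : ∀ i j, |∫ x in cube, a x j * (pd j (fun y => LO n v y i) x * a x i)|
      ≤ B * energy a := by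
    intro i j
    have hb : SP (fun y => LO n v y i) := sp_lo n
    have hR : ∀ x, |pd j (fun y => LO n v y i) x| ≤ B := by
      intro x
      refine (abs_pd_lo_le (hv i) n j x).trans ?_
      have h4 : nrm (lo n fun y => v y i) ≤ Real.sqrt (energy (LO n v)) := nrm_le_energy (LO n v) i
      rw [hB]
      gcongr
    have e : (∫ x in cube, a x j * (pd j (fun y => LO n v y i) x * a x i))
        = ∫ x in cube, (pd j (fun y => LO n v y i) x * a x j) * a x i := by
      congr 1; funext x; ring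
    rw [e]
    refine (abs_int_mul_le ((hb.pd j).mul (ha j)).cont (ha i).cont).trans ?_
    have h3 := nrm_mul_le (hb.pd j).cont (ha j).cont hR
    calc nrm (fun x => pd j (fun y => LO n v y i) x * a x j) * nrm (fun x => a x i)
        ≤ (B * Real.sqrt (energy a)) * Real.sqrt (energy a) := by
          refine mul_le_mul (h3.trans ?_) (nrm_le_energy a i) (nrm_nonneg _) (by positivity)
          exact mul_le_mul_of_nonneg_left (nrm_le_energy a j) hB0
      _ = B * (Real.sqrt (energy a) ^ 2) := by ring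
      _ = B * energy a := by rw [Real.sq_sqrt (energy_nonneg _)]
  calc |∑ i, ∑ j, ∫ x in cube, a x j * (pd j (fun y => LO n v y i) x * a x i)|
      ≤ ∑ i : Fin 3, ∑ j : Fin 3, |∫ x in cube, a x j * (pd j (fun y => LO n v y i) x * a x i)| :=
        (Finset.abs_sum_le_sum_abs _ _).trans
          (Finset.sum_le_sum fun i _ => Finset.abs_sum_le_sum_abs _ _)
    _ ≤ ∑ i : Fin 3, ∑ j : Fin 3, B * energy a :=
        Finset.sum_le_sum fun i _ => Finset.sum_le_sum fun j _ => h1 i j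
    _ = _ := by
        simp only [Finset.sum_const, Finset.card_univ, Fintype.card_fin, nsmul_eq_mul]
        rw [hB]
        push_cast; ring

theorem ip_lo {v : V → V} (hv : SF v) (n : ℕ) : ip v (LO n v) = energy (LO n v) := by
  unfold ip energy
  refine Finset.sum_congr rfl fun i _ => ?_
  have e : ∀ x, v x i * LO n v x i
      = LO n v x i ^ 2 + lo n (fun y => v y i) x * (v x i - lo n (fun y => v y i) x) := by
    intro x
    unfold LO; ring
  simp_rw [e]
  have i1 : IntegrableOn (fun x => LO n v x i ^ 2) cube := integrableOn_cube ((sp_lo n).cont.pow 2)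
  have i2 : IntegrableOn (fun x => lo n (fun y => v y i) x
      * (v x i - lo n (fun y => v y i) x)) cube := ((sp_lo n).mul (sp_sub (hv i) (sp_lo n))).int
  rw [integral_add i1 i2, int_lo_hi (hv i), add_zero]

section sol

variable {ν T : ℝ} {u : ℝ → V → V} {p : ℝ → V → ℝ}

theorem ip_hd (h : IsSol ν T u p) {t : ℝ} (ht : t ∈ Ioo 0 T) {w : V → V} (hw : SF w) :
    HasDerivAt (fun s => ip (u s) w) (ip (vel T u t) w) t :=
  HasDerivAt.fun_sum fun i _ => hd_int_mul (sm_u h i) (hw i).smooth ht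

theorem ip_vel (h : IsSol ν T u p) {t : ℝ} (ht : t ∈ Ioo 0 T) {w : V → V} (hw : SF w)
    (hdw : DivF w) : ip (vel T u t) w = -(ν * gip (u t) w) + tr (u t) w (u t) :=
  (ip_hd h ht hw).unique (Pool.Agent.W978.TQ.ip_hasDerivAt h hw hdw ht)

/-- the constant in the bounds of the low-frequency part -/
noncomputable def KL (ν E0 : ℝ) : ℝ := 90 * ν * Real.sqrt E0 + 30 * E0

theorem sqrt_energy_LO_le (h : IsSol ν T u p) (hν : 0 < ν) {t : ℝ} (ht : t ∈ Ioo 0 T) (n : ℕ) :
    Real.sqrt (energy (LO n (vel T u t)))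
      ≤ KL ν (energy (u 0)) * ((2 * n + 1) * Real.sqrt ((2 * n + 1) ^ 3)) := by
  set v := vel T u t with hv
  have sv : SF v := SF_vel h ht
  have su : SF (u t) := SF_u h ht
  set X := Real.sqrt (energy (LO n v)) with hX
  have hX0 : 0 ≤ X := Real.sqrt_nonneg _
  have hX2 : X ^ 2 = energy (LO n v) := Real.sq_sqrt (energy_nonneg _)
  have h1 : energy (LO n v) = -(ν * gip (u t) (LO n v)) + tr (u t) (LO n v) (u t) := by
    rw [← ip_lo sv n]
    exact ip_vel h ht (SF.lo n) (div_lo sv (div_vel h ht) n)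
  have h2 := abs_gip_lo_le su sv n
  have h3 := abs_tr_lo_le su sv n
  have hE : energy (u t) ≤ energy (u 0) := h.energy_le hν ⟨ht.1.le, ht.2⟩
  set E0 := energy (u 0) with hE0
  have hE00 : 0 ≤ E0 := energy_nonneg _
  have hsE : Real.sqrt (energy (u t)) ≤ Real.sqrt E0 := Real.sqrt_le_sqrt hE
  rw [← hX] at h2 h3
  set m : ℝ := 2 * n + 1 with hm
  have hn0 : (0 : ℝ) ≤ n := Nat.cast_nonneg n
  have hm1 : 1 ≤ m := by linarith
  set q := Real.sqrt (m ^ 3) with hq
  have hq2 : q ^ 2 = m ^ 3 := Real.sq_sqrt (by positivity)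
  have hq0 : 0 ≤ q := Real.sqrt_nonneg _
  have hmq : m ≤ q := by
    apply Real.le_sqrt_of_sq_le
    nlinarith [mul_le_mul_of_nonneg_left hm1 (sq_nonneg m)]
  have hpi : Real.pi ^ 2 ≤ 10 := by
    have := Real.pi_lt_d2
    have h0 := Real.pi_pos
    nlinarith
  have hpi2 : Real.pi ≤ 10 / 3 := by
    have := Real.pi_lt_d2
    linarith
  have hpi0 := Real.pi_pos
  have hpn : (2 * Real.pi * n) ^ 2 ≤ 10 * (m * q) := by
    calc (2 * Real.pi * n) ^ 2 = Real.pi ^ 2 * (2 * n) ^ 2 := by ring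
      _ ≤ 10 * m ^ 2 := by
          have : (2 * (n : ℝ)) ^ 2 ≤ m ^ 2 := by
            apply pow_le_pow_left₀ (by positivity); linarith
          gcongr
      _ = 10 * (m * m) := by ring
      _ ≤ 10 * (m * q) := by gcongr
  have hpn2 : q * (2 * Real.pi * n) ≤ 10 / 3 * (m * q) := by
    calc q * (2 * Real.pi * n) = Real.pi * ((2 * n) * q) := by ring
      _ ≤ 10 / 3 * (m * q) := by
          have : 2 * (n : ℝ) ≤ m := by linarith
          gcongr
  have h4 : energy (LO n v) ≤ ν * (9 * ((2 * Real.pi * n) ^ 2 * (Real.sqrt (energy (u t)) * X)))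
      + 9 * (q * (2 * Real.pi * n) * X * energy (u t)) := by
    rw [h1]
    have a1 := (abs_le.1 h2).1
    have a2 := (abs_le.1 h3).2
    nlinarith
  have h5 : X ^ 2 ≤ X * (KL ν E0 * (m * q)) := by
    rw [hX2]
    refine h4.trans ?_
    have b1 : (2 * Real.pi * n) ^ 2 * (Real.sqrt (energy (u t)) * X)
        ≤ 10 * (m * q) * (Real.sqrt E0 * X) := by gcongr
    have b2 : q * (2 * Real.pi * n) * X * energy (u t) ≤ 10 / 3 * (m * q) * X * E0 := by
      have := energy_nonneg (u t)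
      gcongr
    have : X * (KL ν E0 * (m * q)) = ν * (9 * (10 * (m * q) * (Real.sqrt E0 * X)))
        + 9 * (10 / 3 * (m * q) * X * E0) := by
      unfold KL; ring
    rw [this]
    gcongr
  rcases hX0.eq_or_lt with h0 | h0
  · rw [← h0]
    unfold KL
    positivity
  · nlinarith

theorem KL_nonneg {ν E0 : ℝ} (hν : 0 < ν) (hE : 0 ≤ E0) : 0 ≤ KL ν E0 := by
  unfold KL; positivity

theorem energy_LO_le (h : IsSol ν T u p) (hν : 0 < ν) {t : ℝ} (ht : t ∈ Ioo 0 T) (n : ℕ) :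
    energy (LO n (vel T u t)) ≤ KL ν (energy (u 0)) ^ 2 * (2 * n + 1) ^ 5 := by
  have h1 := sqrt_energy_LO_le h hν ht n
  have h2 : Real.sqrt (energy (LO n (vel T u t))) ^ 2 = energy (LO n (vel T u t)) :=
    Real.sq_sqrt (energy_nonneg _)
  rw [← h2]
  have h3 : Real.sqrt ((2 * (n : ℝ) + 1) ^ 3) ^ 2 = (2 * (n : ℝ) + 1) ^ 3 :=
    Real.sq_sqrt (by positivity)
  calc Real.sqrt (energy (LO n (vel T u t))) ^ 2
      ≤ (KL ν (energy (u 0)) * ((2 * n + 1) * Real.sqrt ((2 * n + 1) ^ 3))) ^ 2 :=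
        pow_le_pow_left₀ (Real.sqrt_nonneg _) h1 2
    _ = KL ν (energy (u 0)) ^ 2 * (2 * n + 1) ^ 2 * Real.sqrt ((2 * (n : ℝ) + 1) ^ 3) ^ 2 := by ring
    _ = _ := by rw [h3]; ring

theorem abs_LO_le (h : IsSol ν T u p) (hν : 0 < ν) {t : ℝ} (ht : t ∈ Ioo 0 T) (n : ℕ)
    (j : Fin 3) (x : V) :
    |LO n (vel T u t) x j| ≤ KL ν (energy (u 0)) * (2 * n + 1) ^ 4 := by
  have h1 := sqrt_energy_LO_le h hν ht n
  have h3 : Real.sqrt ((2 * (n : ℝ) + 1) ^ 3) ^ 2 = (2 * (n : ℝ) + 1) ^ 3 :=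
    Real.sq_sqrt (by positivity)
  have h4 : nrm (lo n fun y => vel T u t y j) ≤ Real.sqrt (energy (LO n (vel T u t))) :=
    nrm_le_energy (LO n (vel T u t)) j
  calc |LO n (vel T u t) x j|
      ≤ Real.sqrt ((2 * n + 1) ^ 3) * nrm (lo n fun y => vel T u t y j) := abs_lo_le' n x
    _ ≤ Real.sqrt ((2 * n + 1) ^ 3)
        * (KL ν (energy (u 0)) * ((2 * n + 1) * Real.sqrt ((2 * n + 1) ^ 3))) :=
        mul_le_mul_of_nonneg_left (h4.trans h1) (Real.sqrt_nonneg _)
    _ = KL ν (energy (u 0)) * (2 * n + 1) * Real.sqrt ((2 * (n : ℝ) + 1) ^ 3) ^ 2 := by ring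
    _ = _ := by rw [h3]; ring

theorem energy_vel_eq (h : IsSol ν T u p) {t : ℝ} (ht : t ∈ Ioo 0 T) (n : ℕ) :
    energy (vel T u t) = EH T u n t + energy (LO n (vel T u t)) := by
  unfold EH energy
  rw [← Finset.sum_add_distrib]
  exact Finset.sum_congr rfl fun i _ => int_split_sq (sp_vel h ht i) n

theorem EH_anti (h : IsSol ν T u p) {t : ℝ} (ht : t ∈ Ioo 0 T) {m n : ℕ} (hmn : m ≤ n) :
    EH T u n t ≤ EH T u m t := by
  unfold EH energy
  exact Finset.sum_le_sum fun i _ => int_hi_anti (sp_vel h ht i) hmn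

end sol

end Pool.Agent.Q176.ES
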