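import Pool.Agent.Q176.ES.F5
import Pool.Agent.Results.MP_6bf1e5_an.HoelderQuarter
import Pool.Agent.W795.ES.Osc

/-!
Lower bound of `‖∂ₜ u‖` at a singular time, and boundedness if `‖∂ₜ u‖ ≤ κ (T - t)^{-3/4}`.
-/

set_option autoImplicit false

open MeasureTheory Set Filter Topology H459R3.NS
open scoped ContDiff

namespace Pool.Agent.Q176.ES

open Pool.Agent.W795.TQ

/-- bounded up to the time `T` -/
def Bd (T : ℝ) (u : ℝ → V → V) : Prop := ∃ M, ∀ t ∈ Ico 0 T, ∀ x i, |u t x i| ≤ M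

theorem energy_smul (c : ℝ) (v : V → V) : energy (fun x => c • v x) = c ^ 2 * energy v := by
  unfold energy
  rw [Finset.mul_sum]
  refine Finset.sum_congr rfl fun i _ => ?_
  rw [← integral_const_mul]
  congr 1; funext x
  simp only [Pi.smul_apply, smul_eq_mul]; ring

theorem enstrophy_smul (c : ℝ) {v : V → V} (hv : SF v) :
    enstrophy (fun x => c • v x) = c ^ 2 * enstrophy v := by
  unfold enstrophy
  rw [Finset.mul_sum]
  refine Finset.sum_congr rfl fun i _ => ?_
  rw [Finset.mul_sum]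
  refine Finset.sum_congr rfl fun j _ => ?_
  rw [← integral_const_mul]
  congr 1; funext x
  have : pd j (fun y => (c • v y) i) x = c * pd j (fun y => v y i) x := by
    unfold pd
    have h : HasFDerivAt (fun y => (c • v y) i) _ x := ((hv i).diff x).hasFDerivAt.const_mul c
    rw [h.fderiv]
    rfl
  rw [this]; ring

section sol

variable {ν T : ℝ} {u : ℝ → V → V} {p : ℝ → V → ℝ}

theorem ens_lower : ∃ C : ℝ, 0 < C ∧ ∀ (ν T : ℝ) (u : ℝ → V → V) (p : ℝ → V → ℝ), 0 < ν →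
    IsSol ν T u p → ¬ Bd T u → ∀ t ∈ Ioo 0 T, ν ^ 3 ≤ C * enstrophy (u t) ^ 2 * (T - t) := by
  obtain ⟨C, hC, hL⟩ := Pool.Agent.W636.TQ.proof
  refine ⟨C, hC, fun ν T u p hν h hB t ht => ?_⟩
  by_contra hcon
  push Not at hcon
  apply hB
  have hs := Pool.Agent.W185.TQ.proof_scale ν T u p hν h
  have hνt : ν * t ∈ Ioo 0 (ν * T) := ⟨mul_pos hν ht.1, mul_lt_mul_of_pos_left ht.2 hν⟩
  obtain ⟨M, hM⟩ := hL (ν * T) _ _ hs (ν * t) hνt (by
    have e1 : ν * t / ν = t := by field_simp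
    simp only [e1]
    rw [enstrophy_smul _ (SF_u h ht)]
    have e2 : C * (ν⁻¹ ^ 2 * enstrophy (u t)) ^ 2 * (ν * T - ν * t)
        = (C * enstrophy (u t) ^ 2 * (T - t)) / ν ^ 3 := by
      field_simp
    rw [e2, div_lt_one (by positivity)]
    exact hcon)
  refine ⟨ν * M, fun r hr x i => ?_⟩
  have hνr : ν * r ∈ Ico 0 (ν * T) := ⟨mul_nonneg hν.le hr.1, mul_lt_mul_of_pos_left hr.2 hν⟩
  have h1 := hM (ν * r) hνr x i
  have e1 : ν * r / ν = r := by field_simp
  simp only [e1, Pi.smul_apply, smul_eq_mul] at h1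
  rw [abs_mul, abs_of_pos (inv_pos.2 hν), inv_mul_le_iff₀ hν] at h1
  exact h1

theorem ip_vel_u (h : IsSol ν T u p) {t : ℝ} (ht : t ∈ Ioo 0 T) :
    ip (vel T u t) (u t) = -(ν * enstrophy (u t)) := by
  have h1 := h.energy_hasDerivAt ht
  have h2 : HasDerivAt (fun s => energy (u s)) (2 * ip (vel T u t) (u t)) t := by
    unfold ip
    rw [Finset.mul_sum]
    refine HasDerivAt.fun_sum fun i _ => ?_
    refine (hd_int_sq (sm_u h i) ht).congr_deriv ?_
    congr 2
    funext x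
    show u t x i * vel T u t x i = _
    ring
  have h3 := h1.unique h2
  linarith

theorem cont_of_SF {a : V → V} (ha : SF a) (i : Fin 3) : Continuous fun x => a x i := (ha i).cont

theorem vel_lower : ∃ c : ℝ, 0 < c ∧ ∀ (ν T : ℝ) (u : ℝ → V → V) (p : ℝ → V → ℝ), 0 < ν →
    IsSol ν T u p → ¬ Bd T u → ∀ t ∈ Ioo 0 T,
    c * ν ^ 5 * (T - t)⁻¹ ≤ energy (vel T u t) * energy (u 0) := by
  obtain ⟨C, hC, hL⟩ := ens_lower
  refine ⟨C⁻¹, inv_pos.2 hC, fun ν T u p hν h hB t ht => ?_⟩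
  have h1 := hL ν T u p hν h hB t ht
  have hTt : 0 < T - t := by linarith [ht.2]
  have h2 := ip_vel_u h ht
  have sneg : SF (fun x => -u t x) := fun i => by
    have := SP.const_mul' (SF_u h ht i) (-1)
    have e : (fun y => (-u t y) i) = fun x => -1 * u t x i := by funext x; simp
    rw [e]; exact this
  have h3 := ip_sq_le (a := vel T u t) (b := fun x => -u t x) (cont_of_SF (SF_vel h ht))
    (cont_of_SF sneg)
  have e1 : ip (vel T u t) (fun x => -u t x) = ν * enstrophy (u t) := by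
    have : ip (vel T u t) (fun x => -u t x) = -ip (vel T u t) (u t) := by
      unfold ip
      rw [← Finset.sum_neg_distrib]
      refine Finset.sum_congr rfl fun i _ => ?_
      rw [← integral_neg]
      congr 1; funext x; simp
    rw [this, h2]; ring
  have e2 : energy (fun x => -u t x) = energy (u t) := by
    unfold energy
    refine Finset.sum_congr rfl fun i _ => ?_
    congr 1; funext x; simp
  rw [e1, e2] at h3
  have hE : energy (u t) ≤ energy (u 0) := h.energy_le hν ⟨ht.1.le, ht.2⟩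
  have hens := enstrophy_nonneg (u t)
  have h4 : (ν * enstrophy (u t)) ^ 2 ≤ energy (vel T u t) * energy (u 0) := by
    calc (ν * enstrophy (u t)) ^ 2
        ≤ (Real.sqrt (energy (vel T u t)) * Real.sqrt (energy (u t))) ^ 2 :=
          pow_le_pow_left₀ (by positivity) h3 2
      _ = energy (vel T u t) * energy (u t) := by
          rw [mul_pow, Real.sq_sqrt (energy_nonneg _), Real.sq_sqrt (energy_nonneg _)]
      _ ≤ _ := mul_le_mul_of_nonneg_left hE (energy_nonneg _)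
  refine le_trans ?_ h4
  have h5 : C⁻¹ * ν ^ 5 * (T - t)⁻¹ = ν ^ 2 * (ν ^ 3 / (C * (T - t))) := by
    field_simp
  rw [h5, mul_pow]
  refine mul_le_mul_of_nonneg_left ?_ (by positivity)
  rw [div_le_iff₀ (by positivity)]
  linarith

/-- increments of `u` in `L²` -/
theorem incr_le (h : IsSol ν T u p) {a b κ : ℝ} (ha : 0 < a) (hab : a ≤ b) (hb : b < T)
    (hκ : 0 ≤ κ) (hr : ∀ t ∈ Icc a b, Real.sqrt (energy (vel T u t)) ≤ κ * (T - t) ^ (-(3 / 4) : ℝ)) :
    Real.sqrt (energy (fun x => u b x - u a x))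
      ≤ 4 * κ * ((T - a) ^ (1 / 4 : ℝ) - (T - b) ^ (1 / 4 : ℝ)) := by
  set w : V → V := fun x => u b x - u a x with hw
  have hbI : b ∈ Ioo 0 T := ⟨ha.trans_le hab, hb⟩
  have haI : a ∈ Ioo 0 T := ⟨ha, hab.trans_lt hb⟩
  have sw : SF w := fun i => sp_sub (SF_u h hbI i) (SF_u h haI i)
  have hI : ∀ t ∈ uIcc a b, t ∈ Ioo 0 T := by
    intro t ht
    rw [uIcc_of_le hab] at ht
    exact ⟨ha.trans_le ht.1, ht.2.trans_lt hb⟩
  have h1 : ∀ t ∈ uIcc a b, HasDerivAt (fun s => ip (u s) w) (ip (vel T u t) w) t :=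
    fun t ht => ip_hd h (hI t ht) sw
  have hc : ContinuousOn (fun t => ip (vel T u t) w) (uIcc a b) := by
    have h2 : ContinuousOn (fun t => ip (vel T u t) w) (Ico 0 T) := by
      unfold ip
      refine continuousOn_finsetSum _ fun i _ => ?_
      exact continuousOn_int (F := fun s x => vel T u s x i * w x i)
        ((sm_vel h i).continuousOn.mul (((sw i).cont.comp continuous_snd).continuousOn))
    exact h2.mono fun t ht => ⟨(hI t ht).1.le, (hI t ht).2⟩
  have h2 := intervalIntegral.integral_eq_sub_of_hasDerivAt h1 hc.intervalIntegrable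
  have h3 : ip (u b) w - ip (u a) w = energy w := by
    unfold ip energy
    rw [← Finset.sum_sub_distrib]
    refine Finset.sum_congr rfl fun i _ => ?_
    rw [← integral_sub ((SF_u h hbI i).mul (sw i)).int ((SF_u h haI i).mul (sw i)).int]
    congr 1; funext x
    simp only [hw, Pi.sub_apply]
    ring
  set X := Real.sqrt (energy w) with hX
  have hX0 : 0 ≤ X := Real.sqrt_nonneg _
  have hX2 : X ^ 2 = energy w := Real.sq_sqrt (energy_nonneg _)
  have hi : IntervalIntegrable (fun t => κ * (T - t) ^ (-(3 / 4) : ℝ) * X) volume a b := by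
    apply ContinuousOn.intervalIntegrable
    intro t ht
    have hp : T - t ≠ 0 := by linarith [(hI t ht).2]
    exact ((((by fun_prop : Continuous fun t : ℝ => T - t).continuousAt.rpow_const
      (Or.inl hp)).const_mul κ).mul_const X).continuousWithinAt
  have h4 : ∫ t in a..b, ip (vel T u t) w ≤ ∫ t in a..b, κ * (T - t) ^ (-(3 / 4) : ℝ) * X := by
    refine intervalIntegral.integral_mono_on hab hc.intervalIntegrable hi fun t ht => ?_
    have ht' : t ∈ Ioo 0 T := hI t (by rw [uIcc_of_le hab]; exact ht)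
    refine (ip_sq_le (cont_of_SF (SF_vel h ht')) (cont_of_SF sw)).trans ?_
    exact mul_le_mul_of_nonneg_right (hr t ht) hX0
  rw [intervalIntegral.integral_mul_const, intervalIntegral.integral_const_mul,
    Pool.Agent.W795.ES.int_rate hab hb, h2, h3, ← hX2] at h4
  have hD : 0 ≤ (T - a) ^ (1 / 4 : ℝ) - (T - b) ^ (1 / 4 : ℝ) := by
    rw [sub_nonneg]
    exact Real.rpow_le_rpow (by linarith) (by linarith) (by norm_num)
  rcases hX0.eq_or_lt with h0 | h0
  · rw [← h0]; positivity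
  · have : X * X ≤ (4 * κ * ((T - a) ^ (1 / 4 : ℝ) - (T - b) ^ (1 / 4 : ℝ))) * X := by nlinarith
    exact le_of_mul_le_mul_right this h0

/-- the space `L²(cube)³` -/
abbrev HH := PiLp 2 fun _ : Fin 3 => Lp ℝ 2 ((volume : Measure V).restrict cube)

/-- the class of a continuous field -/
noncomputable def cl (a : V → V) (ha : ∀ i, Continuous fun x => a x i) : HH :=
  WithLp.toLp 2 fun i => (memLp_c (ha i)).toLp _

theorem norm_sub_sq (a : V → V) (ha : ∀ i, Continuous fun x => a x i) (U : HH) :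
    ‖cl a ha - U‖ ^ 2 = energy (fun x => a x - fun i => U.ofLp i x) := by
  rw [PiLp.norm_sq_eq_of_L2]
  unfold energy
  refine Finset.sum_congr rfl fun i _ => ?_
  have e1 : ‖(cl a ha - U).ofLp i‖ ^ 2 = ∫ x in cube, ((cl a ha - U).ofLp i x) ^ 2 := by
    have := @MeasureTheory.L2.inner_def V ℝ ℝ _ _ _ _ _ ((cl a ha - U).ofLp i)
      ((cl a ha - U).ofLp i)
    rw [real_inner_self_eq_norm_sq] at this
    rw [this]
    congr 1; funext x
    simp [sq]
  rw [e1]
  refine integral_congr_ae ?_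
  have h1 : (cl a ha - U).ofLp i = (memLp_c (ha i)).toLp _ - U.ofLp i := rfl
  rw [h1]
  filter_upwards [Lp.coeFn_sub ((memLp_c (ha i)).toLp _) (U.ofLp i),
    (memLp_c (ha i)).coeFn_toLp] with x h2 h3
  rw [h2, Pi.sub_apply, h3]
  rfl

/-- If `‖∂ₜ u‖ ≤ κ (T - t)^{-3/4}` with a small `κ` then the solution is bounded. -/
theorem vel_crit : ∃ k : ℝ, 0 < k ∧ ∀ (ν T : ℝ) (u : ℝ → V → V) (p : ℝ → V → ℝ), 0 < ν →
    IsSol ν T u p → ∀ t1 : ℝ, 0 < t1 → t1 < T → ∀ κ : ℝ, 0 < κ → 11 * κ ^ 2 ≤ k * ν ^ (5 / 2 : ℝ) →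
    (∀ t ∈ Ioo t1 T, energy (vel T u t) ≤ κ ^ 2 * (T - t) ^ (-(3 / 2) : ℝ)) → Bd T u := by
  obtain ⟨k, hk, hcrit⟩ := Pool.Agent.Results.MP_6bf1e5_an.HoelderQuarter.result
  refine ⟨k, hk, fun ν T u p hν h t1 ht1 ht1T κ hκ hκk hr => ?_⟩
  have hr' : ∀ t ∈ Ioo t1 T, Real.sqrt (energy (vel T u t)) ≤ κ * (T - t) ^ (-(3 / 4) : ℝ) := by
    intro t ht
    have hp : 0 < T - t := by linarith [ht.2]
    apply Real.sqrt_le_iff.2
    refine ⟨by positivity, (hr t ht).trans (le_of_eq ?_)⟩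
    rw [mul_pow]
    congr 1
    rw [← Real.rpow_natCast ((T - t) ^ (-(3 / 4) : ℝ)) 2, ← Real.rpow_mul hp.le]
    norm_num
  classical
  set v : ℝ → HH := fun t => if ht : t ∈ Ioo 0 T then cl (u t) (cont_of_SF (SF_u h ht)) else 0
    with hv
  have hvt : ∀ t (ht : t ∈ Ioo 0 T), v t = cl (u t) (cont_of_SF (SF_u h ht)) := fun t ht => by
    simp only [hv]; rw [dif_pos ht]
  have hinc : ∀ a b, t1 < a → a ≤ b → b < T →
      ‖v b - v a‖ ≤ 4 * κ * ((T - a) ^ (1 / 4 : ℝ) - (T - b) ^ (1 / 4 : ℝ)) := by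
    intro a b ha hab hb
    have haI : a ∈ Ioo 0 T := ⟨ht1.trans ha, hab.trans_lt hb⟩
    have hbI : b ∈ Ioo 0 T := ⟨haI.1.trans_le hab, hb⟩
    have h1 := incr_le h haI.1 hab hb hκ.le (fun t ht => hr' t ⟨ha.trans_le ht.1, ht.2.trans_lt hb⟩)
    refine le_trans (le_of_eq ?_) h1
    have h2 := norm_sub_sq (u b) (cont_of_SF (SF_u h hbI)) (v a)
    rw [← hvt b hbI] at h2
    have h3 : energy (fun x => u b x - fun i => (v a).ofLp i x) = energy (fun x => u b x - u a x) := by
      unfold energy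
      refine Finset.sum_congr rfl fun i _ => ?_
      refine integral_congr_ae ?_
      have h4 : (v a).ofLp i = (memLp_c (cont_of_SF (SF_u h haI) i)).toLp _ := by
        rw [hvt a haI]; rfl
      filter_upwards [(memLp_c (cont_of_SF (SF_u h haI) i)).coeFn_toLp] with x h5
      simp only [Pi.sub_apply]
      rw [h4, h5]
    rw [← h3, ← h2, Real.sqrt_sq (norm_nonneg _)]
  obtain ⟨U, hU⟩ := Pool.Agent.W795.ES.limit_state ht1T hκ.le hinc
  refine hcrit ν T u p (fun x i => U.ofLp i x) (T - t1) hν h (fun i => Lp.memLp _) (by linarith)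
    (by linarith) ?_
  intro h0 hh0 hh1
  have hle : T - h0 ≤ T := by linarith
  have hb : ∀ t ∈ Ioo (T - h0) T, energy (fun x => u t x - fun i => U.ofLp i x)
      ≤ 16 * κ ^ 2 * (T - t) ^ (1 / 2 : ℝ) := by
    intro t ht
    have ht1' : t1 < t := by linarith [ht.1]
    have htI : t ∈ Ioo 0 T := ⟨ht1.trans ht1', ht.2⟩
    have h1 := hU t ht1' ht.2
    have h00 : 0 ≤ T - t := by linarith [ht.2]
    have h2 := norm_sub_sq (u t) (cont_of_SF (SF_u h htI)) U
    rw [← hvt t htI] at h2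
    rw [← h2]
    calc ‖v t - U‖ ^ 2 ≤ (4 * κ * (T - t) ^ (1 / 4 : ℝ)) ^ 2 := by gcongr
      _ = 16 * κ ^ 2 * ((T - t) ^ (1 / 4 : ℝ)) ^ 2 := by ring
      _ = 16 * κ ^ 2 * (T - t) ^ (1 / 2 : ℝ) := by
          have e : ((T - t) ^ (1 / 4 : ℝ)) ^ 2 = (T - t) ^ (1 / 2 : ℝ) := by
            rw [← Real.rpow_natCast ((T - t) ^ (1 / 4 : ℝ)) 2, ← Real.rpow_mul h00]; norm_num
          rw [e]
  have hcg : Continuous fun t : ℝ => 16 * κ ^ 2 * |T - t| ^ (1 / 2 : ℝ) := by
    refine continuous_const.mul ?_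
    exact (by fun_prop : Continuous fun t : ℝ => |T - t|).rpow_const fun _ => Or.inr (by norm_num)
  have hgi : IntegrableOn (fun t : ℝ => 16 * κ ^ 2 * (T - t) ^ (1 / 2 : ℝ)) (Ioo (T - h0) T) := by
    refine ((hcg.integrableOn_Icc (a := T - h0) (b := T)).mono_set Ioo_subset_Icc_self).congr_fun
      (fun t ht => ?_) measurableSet_Ioo
    simp only
    rw [abs_of_nonneg (by linarith [ht.2])]
  rw [intervalIntegral.integral_of_le hle, integral_Ioc_eq_integral_Ioo]
  have h6 : ∫ t in Ioo (T - h0) T, energy (fun x => u t x - fun i => U.ofLp i x)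
      ≤ ∫ t in Ioo (T - h0) T, 16 * κ ^ 2 * (T - t) ^ (1 / 2 : ℝ) := by
    refine integral_mono_of_nonneg (Eventually.of_forall fun t => energy_nonneg _) hgi ?_
    exact (ae_restrict_iff' measurableSet_Ioo).2 (Eventually.of_forall hb)
  refine h6.trans ?_
  rw [← integral_Ioc_eq_integral_Ioo, ← intervalIntegral.integral_of_le hle,
    intervalIntegral.integral_const_mul]
  have e1 : ∫ t in (T - h0)..T, (T - t) ^ (1 / 2 : ℝ) = 2 / 3 * h0 ^ (3 / 2 : ℝ) := by
    have := intervalIntegral.integral_comp_sub_left (a := T - h0) (b := T)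
      (fun t : ℝ => t ^ (1 / 2 : ℝ)) T
    rw [this, sub_self, sub_sub_cancel, integral_rpow (Or.inl (by norm_num))]
    rw [Real.zero_rpow (by norm_num)]
    norm_num
    ring
  rw [e1]
  have h5 : 0 ≤ h0 ^ (3 / 2 : ℝ) := by positivity
  nlinarith [mul_nonneg (sq_nonneg κ) h5, mul_le_mul_of_nonneg_right hκk h5]

end sol

end Pool.Agent.Q176.ES
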