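import Pool.Agent.Q176.ES.F6
import Pool.Agent.W918.ES.GronL1

/-!
Gronwall's inequality over dyadic time intervals; the frequency cutoffs.
-/

set_option autoImplicit false

open MeasureTheory Set Filter Topology H459R3.NS
open scoped ContDiff

namespace Pool.Agent.Q176.ES

open Pool.Agent.W795.TQ

theorem iter_gron {τ : ℕ → ℝ} (hτ : ∀ j, τ j ≤ τ (j + 1)) {E : ℕ → ℝ → ℝ} {β : ℝ → ℝ}
    (hβ0 : ∀ s, 0 ≤ β s) (hβi : ∀ j, IntervalIntegrable β volume (τ j) (τ (j + 1)))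
    (hEc : ∀ j, ContinuousOn (E j) (Icc (τ j) (τ (j + 1))))
    (hstep : ∀ j, ∀ t ∈ Icc (τ j) (τ (j + 1)), E j t ≤ E j (τ j) + ∫ s in τ j..t, β s * E j s)
    (hjump : ∀ j, E (j + 1) (τ (j + 1)) ≤ E j (τ (j + 1))) :
    ∀ j, ∀ t ∈ Icc (τ j) (τ (j + 1)), E j t ≤ E 0 (τ 0) * Real.exp (∫ s in τ 0..t, β s) := by
  have hi : ∀ j, IntervalIntegrable β volume (τ 0) (τ j) := by
    intro j
    induction j with
    | zero => exact IntervalIntegrable.refl
    | succ j ih => exact ih.trans (hβi j)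
  have hsub : ∀ j, ∀ t ∈ Icc (τ j) (τ (j + 1)), IntervalIntegrable β volume (τ j) t := by
    intro j t ht
    refine (hβi j).mono_set ?_
    rw [uIcc_of_le ht.1, uIcc_of_le (hτ j)]
    exact Icc_subset_Icc_right ht.2
  have hone : ∀ j, ∀ t ∈ Icc (τ j) (τ (j + 1)),
      E j t ≤ E j (τ j) * Real.exp (∫ s in τ j..t, β s) := by
    intro j t ht
    exact Pool.Agent.W918.ES.gronL1 ht.1 ((hEc j).mono (Icc_subset_Icc_right ht.2))
      (hsub j t ht) hβ0 (fun r hr => hstep j r ⟨hr.1, hr.2.trans ht.2⟩)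
  have hcomb : ∀ j, E j (τ j) ≤ E 0 (τ 0) * Real.exp (∫ s in τ 0..τ j, β s) →
      ∀ t ∈ Icc (τ j) (τ (j + 1)), E j t ≤ E 0 (τ 0) * Real.exp (∫ s in τ 0..t, β s) := by
    intro j hj t ht
    refine (hone j t ht).trans ?_
    calc E j (τ j) * Real.exp (∫ s in τ j..t, β s)
        ≤ (E 0 (τ 0) * Real.exp (∫ s in τ 0..τ j, β s)) * Real.exp (∫ s in τ j..t, β s) :=
          mul_le_mul_of_nonneg_right hj (Real.exp_pos _).le
      _ = E 0 (τ 0) * Real.exp (∫ s in τ 0..t, β s) := by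
          rw [mul_assoc, ← Real.exp_add, intervalIntegral.integral_add_adjacent_intervals (hi j)
            (hsub j t ht)]
  have hall : ∀ j, E j (τ j) ≤ E 0 (τ 0) * Real.exp (∫ s in τ 0..τ j, β s) := by
    intro j
    induction j with
    | zero => simp
    | succ j ih => exact (hjump j).trans (hcomb j ih _ ⟨hτ j, le_rfl⟩)
  exact fun j => hcomb j (hall j)

/-- dyadic times -/
noncomputable def dy (T t0 : ℝ) (j : ℕ) : ℝ := T - (T - t0) / 2 ^ j

theorem dy_zero (T t0 : ℝ) : dy T t0 0 = t0 := by unfold dy; simp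

theorem dy_lt {T t0 : ℝ} (h : t0 < T) (j : ℕ) : dy T t0 j < T := by
  unfold dy
  have : 0 < (T - t0) / 2 ^ j := div_pos (by linarith) (by positivity)
  linarith

theorem dy_step {T t0 : ℝ} (j : ℕ) : T - dy T t0 (j + 1) = (T - dy T t0 j) / 2 := by
  unfold dy
  rw [pow_succ]
  field_simp
  ring

theorem dy_le {T t0 : ℝ} (h : t0 < T) (j : ℕ) : dy T t0 j ≤ dy T t0 (j + 1) := by
  have h1 := dy_step (T := T) (t0 := t0) j
  have h2 := dy_lt h j
  linarith

theorem dy_ge {T t0 : ℝ} (h : t0 < T) (j : ℕ) : t0 ≤ dy T t0 j := by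
  induction j with
  | zero => rw [dy_zero]
  | succ j ih => exact ih.trans (dy_le h j)

theorem exists_dy {T t0 t : ℝ} (h0 : t0 ≤ t) (h1 : t < T) :
    ∃ j, t ∈ Icc (dy T t0 j) (dy T t0 (j + 1)) := by
  have h : t0 < T := h0.trans_lt h1
  have hex : ∃ j, t < dy T t0 j := by
    obtain ⟨j, hj⟩ := pow_unbounded_of_one_lt ((T - t0) / (T - t)) (one_lt_two)
    refine ⟨j, ?_⟩
    unfold dy
    rw [div_lt_iff₀ (by linarith)] at hj
    have : (T - t0) / 2 ^ j < T - t := by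
      rw [div_lt_iff₀ (by positivity)]; linarith
    linarith
  classical
  have hs := Nat.find_spec hex
  have hm := fun m => Nat.find_min (H := hex) (m := m)
  rcases Nat.eq_zero_or_pos (Nat.find hex) with h2 | h2
  · rw [h2, dy_zero] at hs
    linarith
  · obtain ⟨j, hj⟩ := Nat.exists_eq_succ_of_ne_zero h2.ne'
    refine ⟨j, not_lt.1 (hm j (by omega)), ?_⟩
    rw [hj] at hs
    exact hs.le

/-- the frequency cutoff on the `j`-th dyadic interval -/
noncomputable def NN (α ρ T t0 : ℝ) (j : ℕ) : ℕ := ⌈ρ * (T - dy T t0 (j + 1)) ^ (-α)⌉₊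

section cut

variable {α ρ T t0 : ℝ}

theorem rpow_neg_le {x y : ℝ} (hα : 0 ≤ α) (hx : 0 < x) (hxy : x ≤ y) :
    y ^ (-α) ≤ x ^ (-α) := Real.rpow_le_rpow_of_nonpos hx hxy (by linarith)

theorem NN_mono (hα : 0 ≤ α) (hρ : 0 ≤ ρ) (h : t0 < T) (j : ℕ) :
    NN α ρ T t0 j ≤ NN α ρ T t0 (j + 1) := by
  unfold NN
  apply Nat.ceil_mono
  apply mul_le_mul_of_nonneg_left _ hρ
  apply rpow_neg_le hα (by linarith [dy_lt h (j + 1 + 1)])
  linarith [dy_le h (j + 1)]

theorem le_NN (hα : 0 ≤ α) (hρ : 0 ≤ ρ) (h : t0 < T) {j : ℕ} {t : ℝ}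
    (ht : t ≤ dy T t0 (j + 1)) : ρ * (T - t) ^ (-α) ≤ NN α ρ T t0 j := by
  unfold NN
  refine le_trans ?_ (Nat.le_ceil _)
  apply mul_le_mul_of_nonneg_left _ hρ
  apply rpow_neg_le hα (by linarith [dy_lt h (j + 1)])
  linarith

theorem NN_le (hα : 0 ≤ α) (hα1 : α ≤ 1) (hρ : 0 ≤ ρ) (h : t0 < T) (h0 : 0 < t0) {j : ℕ} {t : ℝ}
    (ht : t ∈ Icc (dy T t0 j) (dy T t0 (j + 1))) :
    (2 * (NN α ρ T t0 j : ℝ) + 1) ≤ (4 * ρ + 3 * T ^ α) * (T - t) ^ (-α) := by
  have htT : 0 < T - t := by linarith [ht.2, dy_lt h (j + 1)]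
  have hT : 0 < T := by linarith
  have hd : 0 < T - dy T t0 (j + 1) := by linarith [dy_lt h (j + 1)]
  have h1 : (NN α ρ T t0 j : ℝ) ≤ ρ * (T - dy T t0 (j + 1)) ^ (-α) + 1 := by
    unfold NN
    exact (Nat.ceil_lt_add_one (by positivity)).le
  have h2 : (T - dy T t0 (j + 1)) ^ (-α) ≤ 2 * (T - t) ^ (-α) := by
    calc (T - dy T t0 (j + 1)) ^ (-α) ≤ ((T - t) / 2) ^ (-α) := by
          apply rpow_neg_le hα (by positivity)
          have := dy_step (T := T) (t0 := t0) j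
          linarith [ht.1]
      _ = 2 ^ α * (T - t) ^ (-α) := by
          rw [Real.div_rpow htT.le (by norm_num), Real.rpow_neg (by norm_num : (0:ℝ) ≤ 2)]
          field_simp
      _ ≤ 2 * (T - t) ^ (-α) := by
          have : (2:ℝ) ^ α ≤ 2 ^ (1:ℝ) := Real.rpow_le_rpow_of_exponent_le (by norm_num) hα1
          rw [Real.rpow_one] at this
          gcongr
  have h3 : 1 ≤ T ^ α * (T - t) ^ (-α) := by
    have h4 : T ^ (-α) ≤ (T - t) ^ (-α) := by
      apply rpow_neg_le hα htT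
      have : 0 ≤ t := by linarith [ht.1, dy_ge h j]
      linarith
    calc (1:ℝ) = T ^ α * T ^ (-α) := by rw [← Real.rpow_add hT]; simp
      _ ≤ _ := by gcongr
  have h5 : ρ * (T - dy T t0 (j + 1)) ^ (-α) ≤ ρ * (2 * (T - t) ^ (-α)) := by gcongr
  nlinarith

end cut

theorem exists_t0 {r B c1 T s : ℝ} (hr : 0 < r) (hc : 0 < c1) (hT : 0 < T) (hs : s < T) :
    ∃ t0 ∈ Ioo 0 T, s ≤ t0 ∧ ∀ t ∈ Ico t0 T, B * (T - t) ^ r ≤ c1 := by
  have h1 : Tendsto (fun x : ℝ => B * x ^ r) (𝓝 0) (𝓝 (B * 0 ^ r)) :=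
    (Real.continuousAt_rpow_const 0 r (Or.inr hr.le)).tendsto.const_mul B
  rw [Real.zero_rpow hr.ne', mul_zero] at h1
  obtain ⟨η, hη, h2⟩ := Metric.eventually_nhds_iff.1 (h1.eventually (gt_mem_nhds hc))
  refine ⟨max (max s (T / 2)) (T - η / 2), ⟨?_, ?_⟩, ?_, ?_⟩
  · exact lt_max_of_lt_left (lt_max_of_lt_right (by linarith))
  · exact max_lt (max_lt hs (by linarith)) (by linarith)
  · exact (le_max_left _ _).trans (le_max_left _ _)
  · intro t ht
    have h3 : T - η / 2 ≤ t := (le_max_right _ _).trans ht.1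
    refine (h2 ?_).le
    rw [Real.dist_eq, sub_zero, abs_of_pos (by linarith [ht.2])]
    linarith

theorem int_pow_le {T r B a b : ℝ} (hr : -1 < r) (hB : 0 ≤ B) (hab : a ≤ b) (hb : b < T) :
    IntervalIntegrable (fun t => B * (T - t) ^ r) volume a b ∧
    ∫ t in a..b, B * (T - t) ^ r ≤ B * ((T - a) ^ (r + 1) / (r + 1)) := by
  have hr1 : 0 < r + 1 := by linarith
  have hi : IntervalIntegrable (fun t => B * (T - t) ^ r) volume a b := by
    apply ContinuousOn.intervalIntegrable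
    intro t ht
    rw [uIcc_of_le hab] at ht
    have hp : T - t ≠ 0 := by linarith [ht.2]
    exact (((by fun_prop : Continuous fun t : ℝ => T - t).continuousAt.rpow_const
      (Or.inl hp)).const_mul B).continuousWithinAt
  refine ⟨hi, ?_⟩
  have h1 : ∀ t ∈ uIcc a b, HasDerivAt (fun t => -(B / (r + 1)) * (T - t) ^ (r + 1))
      (B * (T - t) ^ r) t := by
    intro t ht
    rw [uIcc_of_le hab] at ht
    have hp : T - t ≠ 0 := by linarith [ht.2]
    have h2 : HasDerivAt (fun t => T - t) (-1) t := by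
      simpa using (hasDerivAt_id t).const_sub T
    have h3 := (h2.rpow_const (p := r + 1) (Or.inl hp)).const_mul (-(B / (r + 1)))
    refine h3.congr_deriv ?_
    rw [add_sub_cancel_right]
    field_simp
  rw [intervalIntegral.integral_eq_sub_of_hasDerivAt h1 hi]
  have h4 : 0 ≤ (B / (r + 1)) * (T - b) ^ (r + 1) := by
    have : 0 ≤ T - b := by linarith
    positivity
  have e : B * ((T - a) ^ (r + 1) / (r + 1)) = (B / (r + 1)) * (T - a) ^ (r + 1) := by ring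
  rw [e]
  linarith

end Pool.Agent.Q176.ES
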