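import Pool.Agent.Q176.ES.F7

/-!
Growth of the high-frequency part of `∂ₜ u` before a singular time.
-/

set_option autoImplicit false

open MeasureTheory Set Filter Topology H459R3.NS
open scoped ContDiff

namespace Pool.Agent.Q176.ES

open Pool.Agent.W795.TQ

/-- The field `w` has no frequencies in the cube `[-L, L]³`. -/
def Above (L : ℝ) (w : V → V) : Prop :=
  ∀ k : K3, (∀ j, |(k j : ℝ)| ≤ L) → ∀ i, fr (fun x => w x i) k = 0

/-- The energy of perturbations `w` of the field `v` with frequencies above `L` grows at most with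
the rate `Λ`, up to the fraction `1 - δ` of the dissipation. -/
def Grow (ν δ L : ℝ) (v : V → V) (Λ : ℝ) : Prop :=
  ∀ w : V → V, SPV w → DivF w → Above L w →
    -tr w v w ≤ (1 - δ) * ν * enstrophy w + Λ * energy w

theorem spv_of_sf {a : V → V} (ha : SF a) : SPV a :=
  ⟨contDiff_pi.2 fun i => (ha i).smooth, fun j x => funext fun i => (ha i).per j x⟩

section sol

variable {ν T : ℝ} {u : ℝ → V → V} {p : ℝ → V → ℝ}

theorem DH_cont (h : IsSol ν T u p) (n : ℕ) : ContinuousOn (DH T u n) (Ico 0 T) := by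
  unfold DH
  refine ContinuousOn.const_mul (continuousOn_finsetSum _ fun i _ => ?_) 2
  refine continuousOn_int (F := fun s x => acc T u s x i * HI n (vel T u s) x i) ?_
  refine (sm_acc h i).continuousOn.mul ?_
  show ContinuousOn (fun z : ℝ × V => vel T u z.1 z.2 i
    - ∑ k ∈ box n, (ca (fun y => vel T u z.1 y i) k * cs k z.2
      + cb (fun y => vel T u z.1 y i) k * sn k z.2)) _
  refine (sm_vel h i).continuousOn.sub (continuousOn_finsetSum _ fun k _ => ?_)
  have hc : ∀ w : V → ℝ, Continuous w →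
      ContinuousOn (fun s => ∫ x in cube, vel T u s x i * w x) (Ico 0 T) := fun w hw =>
    continuousOn_int (F := fun s x => vel T u s x i * w x)
      ((sm_vel h i).continuousOn.mul (hw.comp continuous_snd).continuousOn)
  have hmaps : MapsTo (Prod.fst : ℝ × V → ℝ) (Ico 0 T ×ˢ univ) (Ico 0 T) := fun z hz => hz.1
  have h1 : ContinuousOn (fun z : ℝ × V => ca (fun y => vel T u z.1 y i) k) (Ico 0 T ×ˢ univ) :=
    (hc _ (sp_cs k).cont).comp continuous_fst.continuousOn hmaps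
  have h2 : ContinuousOn (fun z : ℝ × V => cb (fun y => vel T u z.1 y i) k) (Ico 0 T ×ˢ univ) :=
    (hc _ (sp_sn k).cont).comp continuous_fst.continuousOn hmaps
  exact (h1.mul ((sp_cs k).cont.comp continuous_snd).continuousOn).add
    (h2.mul ((sp_sn k).cont.comp continuous_snd).continuousOn)

theorem above_hi (h : IsSol ν T u p) {t : ℝ} (ht : t ∈ Ioo 0 T) {L : ℝ} {n : ℕ} (hL : L ≤ n) :
    Above L (HI n (vel T u t)) := by
  intro k hk i
  refine fr_hi (sp_vel h ht i) ?_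
  rw [mem_box]
  intro j
  have h1 := (hk j).trans hL
  exact_mod_cast h1

theorem growth (h : IsSol ν T u p) (hν : 0 < ν) (hB : ¬ Bd T u) {α ρ δ s : ℝ} (hα : 0 ≤ α)
    (hα1 : α < 1 / 5) (hρ : 0 ≤ ρ) (hδ : 0 < δ) (hs : s ∈ Ico 0 T) :
    ∃ (t0 A c1 B : ℝ), t0 ∈ Ioo 0 T ∧ s ≤ t0 ∧ 0 < A ∧ 0 < c1 ∧ 0 ≤ B ∧
    ∀ Λ : ℝ → ℝ, (∀ t, 0 ≤ Λ t) → (∀ t ∈ Ioo s T, IntervalIntegrable Λ volume s t) →
    (∀ᵐ t ∂(volume.restrict (Ioo s T)), Grow ν δ (ρ * (T - t) ^ (-α)) (u t) (Λ t)) →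
    ∀ t ∈ Ico t0 T, c1 * (T - t)⁻¹ ≤ A * Real.exp (2 * ∫ r in t0..t, Λ r) ∧
      energy (vel T u t) ≤ A * Real.exp (2 * ∫ r in t0..t, Λ r) + B * (T - t) ^ (-(5 * α)) := by
  have hT : 0 < T := hs.1.trans_lt hs.2
  obtain ⟨c, hc, hlow⟩ := vel_lower
  have hlow' := hlow ν T u p hν h hB
  set E0 := energy (u 0) with hE0
  have hE00 : 0 ≤ E0 := energy_nonneg _
  set K := KL ν E0 with hK
  have hK0 : 0 ≤ K := KL_nonneg hν hE00
  set c1 : ℝ := c * ν ^ 5 / (2 * (E0 + 1)) with hc1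
  have hc10 : 0 < c1 := by positivity
  set C3 : ℝ := 4 * ρ + 3 * T ^ α with hC3
  have hC30 : 0 ≤ C3 := by positivity
  obtain ⟨t0, ht0, hst0, ht0'⟩ := exists_t0 (r := 1 - 5 * α) (B := K ^ 2 * C3 ^ 5) (c1 := c1)
    (by linarith) hc10 hT hs.2
  have ht0T : t0 < T := ht0.2
  -- lower bound of the whole energy
  have hlow2 : ∀ t ∈ Ico t0 T, 2 * c1 * (T - t)⁻¹ ≤ energy (vel T u t) := by
    intro t ht
    have hp : 0 < T - t := by linarith [ht.2]
    have h1 := hlow' t ⟨ht0.1.trans_le ht.1, ht.2⟩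
    have h2 : energy (vel T u t) * E0 ≤ energy (vel T u t) * (E0 + 1) :=
      mul_le_mul_of_nonneg_left (by linarith) (energy_nonneg _)
    have h3 : 2 * c1 * (T - t)⁻¹ = c * ν ^ 5 * (T - t)⁻¹ / (E0 + 1) := by
      rw [hc1]; field_simp
    rw [h3, div_le_iff₀ (by positivity)]
    linarith
  -- the low frequencies
  have hloE : ∀ j, ∀ t ∈ Icc (dy T t0 j) (dy T t0 (j + 1)),
      energy (LO (NN α ρ T t0 j) (vel T u t)) ≤ K ^ 2 * C3 ^ 5 * (T - t) ^ (-(5 * α)) := by
    intro j t ht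
    have htT : t < T := ht.2.trans_lt (dy_lt ht0T _)
    have hp : 0 < T - t := by linarith
    have htI : t ∈ Ioo 0 T := ⟨ht0.1.trans_le ((dy_ge ht0T j).trans ht.1), htT⟩
    refine (energy_LO_le h hν htI _).trans ?_
    have h1 := NN_le hα (by linarith) hρ ht0T ht0.1 ht
    have h2 : ((T - t) ^ (-α)) ^ 5 = (T - t) ^ (-(5 * α)) := by
      rw [← Real.rpow_natCast ((T - t) ^ (-α)) 5, ← Real.rpow_mul hp.le]
      congr 1; push_cast; ring
    calc K ^ 2 * (2 * (NN α ρ T t0 j : ℝ) + 1) ^ 5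
        ≤ K ^ 2 * (C3 * (T - t) ^ (-α)) ^ 5 := by gcongr
      _ = K ^ 2 * C3 ^ 5 * ((T - t) ^ (-α)) ^ 5 := by ring
      _ = _ := by rw [h2]
  have hloR : ∀ j, ∀ t ∈ Icc (dy T t0 j) (dy T t0 (j + 1)),
      (K * (2 * (NN α ρ T t0 j : ℝ) + 1) ^ 4) ^ 2 ≤ K ^ 2 * C3 ^ 8 * (T - t) ^ (-(8 * α)) := by
    intro j t ht
    have htT : t < T := ht.2.trans_lt (dy_lt ht0T _)
    have hp : 0 < T - t := by linarith
    have h1 := NN_le hα (by linarith) hρ ht0T ht0.1 ht
    have h2 : ((T - t) ^ (-α)) ^ 8 = (T - t) ^ (-(8 * α)) := by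
      rw [← Real.rpow_natCast ((T - t) ^ (-α)) 8, ← Real.rpow_mul hp.le]
      congr 1; push_cast; ring
    calc (K * (2 * (NN α ρ T t0 j : ℝ) + 1) ^ 4) ^ 2
        = K ^ 2 * (2 * (NN α ρ T t0 j : ℝ) + 1) ^ 8 := by ring
      _ ≤ K ^ 2 * (C3 * (T - t) ^ (-α)) ^ 8 := by gcongr
      _ = K ^ 2 * C3 ^ 8 * ((T - t) ^ (-α)) ^ 8 := by ring
      _ = _ := by rw [h2]
  -- lower bound of the high-frequency energy
  have hhi : ∀ j, ∀ t ∈ Icc (dy T t0 j) (dy T t0 (j + 1)),
      c1 * (T - t)⁻¹ ≤ EH T u (NN α ρ T t0 j) t := by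
    intro j t ht
    have htT : t < T := ht.2.trans_lt (dy_lt ht0T _)
    have hp : 0 < T - t := by linarith
    have ht0t : t0 ≤ t := (dy_ge ht0T j).trans ht.1
    have htI : t ∈ Ioo 0 T := ⟨ht0.1.trans_le ht0t, htT⟩
    have h1 := energy_vel_eq h htI (NN α ρ T t0 j)
    have h2 := hlow2 t ⟨ht0t, htT⟩
    have h3 := hloE j t ht
    have h4 : K ^ 2 * C3 ^ 5 * (T - t) ^ (-(5 * α)) ≤ c1 * (T - t)⁻¹ := by
      have h5 := ht0' t ⟨ht0t, htT⟩
      have e : K ^ 2 * C3 ^ 5 * (T - t) ^ (-(5 * α))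
          = (K ^ 2 * C3 ^ 5 * (T - t) ^ (1 - 5 * α)) * (T - t)⁻¹ := by
        rw [mul_assoc (K ^ 2 * C3 ^ 5), ← Real.rpow_neg_one, ← Real.rpow_add hp]
        congr 2; ring
      rw [e]
      exact mul_le_mul_of_nonneg_right h5 (by positivity)
    linarith
  -- the rate
  set B2 : ℝ := 162 * (K ^ 2 * C3 ^ 8) * E0 / (δ * ν * c1) with hB2
  have hB20 : 0 ≤ B2 := by positivity
  set b : ℝ → ℝ := fun t => B2 * (T - t) ^ (1 - 8 * α) with hb
  have hr1 : (-1 : ℝ) < 1 - 8 * α := by linarith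
  set Bi : ℝ := B2 * ((T - t0) ^ (1 - 8 * α + 1) / (1 - 8 * α + 1)) with hBi
  set A : ℝ := EH T u (NN α ρ T t0 0) t0 * Real.exp Bi with hA
  have hA0 : 0 < A := by
    have hmem : t0 ∈ Icc (dy T t0 0) (dy T t0 (0 + 1)) := ⟨(dy_zero T t0).le, dy_ge ht0T _⟩
    have h1 := hhi 0 t0 hmem
    have h2 : 0 < c1 * (T - t0)⁻¹ := mul_pos hc10 (inv_pos.2 (by linarith))
    exact mul_pos (h2.trans_le h1) (Real.exp_pos _)
  refine ⟨t0, A, c1, K ^ 2 * C3 ^ 5, ht0, hst0, hA0, hc10, by positivity, ?_⟩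
  intro Λ hΛ0 hΛi hgrow
  have hΛint : ∀ a b, s ≤ a → a ≤ b → b < T → IntervalIntegrable Λ volume a b := by
    intro a b ha hab hb
    obtain ⟨d, hd1, hd2⟩ := exists_between hb
    refine (hΛi d ⟨(ha.trans hab).trans_lt hd1, hd2⟩).mono_set ?_
    rw [uIcc_of_le hab, uIcc_of_le ((ha.trans hab).trans hd1.le)]
    exact Icc_subset_Icc ha hd1.le
  set β : ℝ → ℝ := fun t => 2 * Λ t + |b t| with hβ
  have hbabs : ∀ t, t < T → |b t| = b t := fun t ht => abs_of_nonneg (by
    simp only [hb]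
    have : 0 < T - t := by linarith
    positivity)
  have hbint : ∀ x y, x ≤ y → y < T → IntervalIntegrable (fun t => |b t|) volume x y := by
    intro x y hxy hy
    exact (int_pow_le hr1 hB20 hxy hy).1.abs
  have hβi : ∀ x y, s ≤ x → x ≤ y → y < T → IntervalIntegrable β volume x y := by
    intro x y hx hxy hy
    exact ((hΛint x y hx hxy hy).const_mul 2).add (hbint x y hxy hy)
  have key := iter_gron (τ := dy T t0) (dy_le ht0T) (E := fun j => EH T u (NN α ρ T t0 j))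
    (β := β) (fun t => by simp only [hβ]; linarith [hΛ0 t, abs_nonneg (b t)])
    (fun j => hβi _ _ (hst0.trans (dy_ge ht0T j)) (dy_le ht0T j) (dy_lt ht0T _))
    (fun j => by
      intro t ht
      have htI : t ∈ Ioo 0 T := ⟨ht0.1.trans_le ((dy_ge ht0T j).trans ht.1),
        ht.2.trans_lt (dy_lt ht0T _)⟩
      exact (EH_hasDerivAt h _ htI).continuousAt.continuousWithinAt)
    (fun j => by
      intro t ht
      have htT : t < T := ht.2.trans_lt (dy_lt ht0T _)
      have hdj : 0 < dy T t0 j := ht0.1.trans_le (dy_ge ht0T j)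
      have hsub : ∀ r ∈ uIcc (dy T t0 j) t, r ∈ Ioo 0 T := by
        intro r hr
        rw [uIcc_of_le ht.1] at hr
        exact ⟨hdj.trans_le hr.1, hr.2.trans_lt htT⟩
      have hDc : ContinuousOn (DH T u (NN α ρ T t0 j)) (uIcc (dy T t0 j) t) :=
        (DH_cont h _).mono fun r hr => ⟨(hsub r hr).1.le, (hsub r hr).2⟩
      have h1 := intervalIntegral.integral_eq_sub_of_hasDerivAt
        (fun r hr => EH_hasDerivAt h (NN α ρ T t0 j) (hsub r hr)) hDc.intervalIntegrable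
      have hEc : ContinuousOn (EH T u (NN α ρ T t0 j)) (uIcc (dy T t0 j) t) := fun r hr =>
        (EH_hasDerivAt h _ (hsub r hr)).continuousAt.continuousWithinAt
      have hi2 : IntervalIntegrable (fun r => β r * EH T u (NN α ρ T t0 j) r) volume
          (dy T t0 j) t :=
        (hβi _ _ (hst0.trans (dy_ge ht0T j)) ht.1 htT).mul_continuousOn hEc
      have h2 : ∫ r in dy T t0 j..t, DH T u (NN α ρ T t0 j) r
          ≤ ∫ r in dy T t0 j..t, β r * EH T u (NN α ρ T t0 j) r := by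
        refine intervalIntegral.integral_mono_ae_restrict ht.1 hDc.intervalIntegrable hi2 ?_
        have h3 : ∀ᵐ r ∂(volume.restrict (Icc (dy T t0 j) t)), r ∈ Ioo s T →
            Grow ν δ (ρ * (T - r) ^ (-α)) (u r) (Λ r) := by
          have h4 := (ae_restrict_iff' measurableSet_Ioo).1 hgrow
          exact ae_restrict_of_ae h4
        have h5 : ∀ᵐ r ∂(volume.restrict (Icc (dy T t0 j) t)), r ≠ s :=
          ae_restrict_of_ae (by
            rw [ae_iff]
            simp)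
        filter_upwards [h3, h5, ae_restrict_mem measurableSet_Icc] with r h6 h7 h8
        have hr : r ∈ Ioo 0 T := hsub r (by rw [uIcc_of_le ht.1]; exact h8)
        have hsr : s ≤ r := (hst0.trans (dy_ge ht0T j)).trans h8.1
        have hrs : r ∈ Ioo s T := ⟨lt_of_le_of_ne hsr (Ne.symm h7), hr.2⟩
        have hrj : r ∈ Icc (dy T t0 j) (dy T t0 (j + 1)) := ⟨h8.1, h8.2.trans ht.2⟩
        have hform := h6 hrs (HI (NN α ρ T t0 j) (vel T u r)) (spv_of_sf ((SF_vel h hr).hi _))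
          (div_hi (SF_vel h hr) (div_vel h hr) _)
          (above_hi h hr (le_NN hα hρ ht0T hrj.2))
        have h9 := DH_le h hν (NN α ρ T t0 j) hr hδ (fun j' x => abs_LO_le h hν hr _ j' x) hform
        refine h9.trans ?_
        have hp : 0 < T - r := by linarith [hr.2]
        have h10 := hloR j r hrj
        have h11 := hhi j r hrj
        have h12 : 162 * (KL ν (energy (u 0)) * (2 * (NN α ρ T t0 j : ℝ) + 1) ^ 4) ^ 2
            * energy (u 0) / (δ * ν) ≤ |b r| * EH T u (NN α ρ T t0 j) r := by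
          rw [hbabs r hr.2]
          calc 162 * (KL ν (energy (u 0)) * (2 * (NN α ρ T t0 j : ℝ) + 1) ^ 4) ^ 2
              * energy (u 0) / (δ * ν)
              ≤ 162 * (K ^ 2 * C3 ^ 8 * (T - r) ^ (-(8 * α))) * E0 / (δ * ν) := by
                gcongr
            _ = b r * (c1 * (T - r)⁻¹) := by
                simp only [hb, hB2]
                have e : (T - r) ^ (-(8 * α)) = (T - r) ^ (1 - 8 * α) * (T - r)⁻¹ := by
                  rw [← Real.rpow_neg_one, ← Real.rpow_add hp]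
                  congr 1; ring
                rw [e]
                field_simp
            _ ≤ b r * EH T u (NN α ρ T t0 j) r := by
                have : 0 ≤ b r := by rw [← hbabs r hr.2]; exact abs_nonneg _
                exact mul_le_mul_of_nonneg_left h11 this
        simp only [hβ]
        nlinarith
      show EH T u (NN α ρ T t0 j) t ≤ EH T u (NN α ρ T t0 j) (dy T t0 j)
        + ∫ r in dy T t0 j..t, β r * EH T u (NN α ρ T t0 j) r
      linarith)
    (fun j => by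
      have hdj : dy T t0 (j + 1) ∈ Ioo 0 T := ⟨ht0.1.trans_le (dy_ge ht0T _), dy_lt ht0T _⟩
      exact EH_anti h hdj (NN_mono hα hρ ht0T j))
  intro t ht
  obtain ⟨j, hj⟩ := exists_dy ht.1 ht.2
  have h1 := key j t hj
  rw [dy_zero] at h1
  have h2 : Real.exp (∫ r in t0..t, β r) ≤ Real.exp Bi * Real.exp (2 * ∫ r in t0..t, Λ r) := by
    rw [← Real.exp_add]
    apply Real.exp_le_exp.2
    simp only [hβ]
    rw [intervalIntegral.integral_add ((hΛint t0 t hst0 ht.1 ht.2).const_mul 2)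
      (hbint t0 t ht.1 ht.2), intervalIntegral.integral_const_mul]
    have h3 : ∫ r in t0..t, |b r| ≤ Bi := by
      have h4 : ∫ r in t0..t, |b r| = ∫ r in t0..t, b r := by
        apply intervalIntegral.integral_congr
        intro r hr
        rw [uIcc_of_le ht.1] at hr
        exact hbabs r (hr.2.trans_lt ht.2)
      rw [h4]
      exact (int_pow_le hr1 hB20 ht.1 ht.2).2
    linarith
  have hE00' : 0 ≤ EH T u (NN α ρ T t0 0) t0 := energy_nonneg _
  have h3 : EH T u (NN α ρ T t0 j) t ≤ A * Real.exp (2 * ∫ r in t0..t, Λ r) := by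
    refine h1.trans ?_
    rw [hA, mul_assoc]
    exact mul_le_mul_of_nonneg_left h2 hE00'
  refine ⟨(hhi j t hj).trans h3, ?_⟩
  have htI : t ∈ Ioo 0 T := ⟨ht0.1.trans_le ht.1, ht.2⟩
  rw [energy_vel_eq h htI (NN α ρ T t0 j)]
  exact add_le_add h3 (hloE j t hj)

end sol

end Pool.Agent.Q176.ES
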