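import Pool.Agent.Q176.ES.F8

/-!
Instability at small scales before a singular time: the two lower bounds.
-/

set_option autoImplicit false

open MeasureTheory Set Filter Topology H459R3.NS
open scoped ContDiff

namespace Pool.Agent.Q176.ES

open Pool.Agent.W795.TQ

theorem main : ∀ (ν T : ℝ) (u : ℝ → V → V) (p : ℝ → V → ℝ), 0 < ν → IsSol ν T u p → ¬ Bd T u →
    ∀ (α ρ δ s : ℝ), 0 ≤ α → α < 1 / 5 → 0 ≤ ρ → 0 < δ → s ∈ Ico 0 T →
    ∃ M : ℝ, ∀ Λ : ℝ → ℝ, (∀ t, 0 ≤ Λ t) → (∀ t ∈ Ioo s T, IntervalIntegrable Λ volume s t) →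
      (∀ᵐ t ∂(volume.restrict (Ioo s T)), Grow ν δ (ρ * (T - t) ^ (-α)) (u t) (Λ t)) →
      (∀ t ∈ Ioo s T, 1 / 2 * Real.log (1 / (T - t)) - M ≤ ∫ r in s..t, Λ r) ∧
      ∀ t1 < T, ∃ t ∈ Ioo t1 T, s < t ∧
        3 / 4 * Real.log (1 / (T - t)) - M ≤ ∫ r in s..t, Λ r := by
  obtain ⟨k, hk, hcrit⟩ := vel_crit
  intro ν T u p hν h hB α ρ δ s hα hα1 hρ hδ hs
  have hT : 0 < T := hs.1.trans_lt hs.2
  obtain ⟨t0, A, c1, B, ht0, hst0, hA, hc1, hB0, hgr⟩ := growth h hν hB hα hα1 hρ hδ hs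
  have hν52 : 0 < ν ^ (5 / 2 : ℝ) := Real.rpow_pos_of_pos hν _
  set κ : ℝ := Real.sqrt (k * ν ^ (5 / 2 : ℝ) / 11) with hκ
  have hκ0 : 0 < κ := Real.sqrt_pos.2 (by positivity)
  have hκ2 : 11 * κ ^ 2 = k * ν ^ (5 / 2 : ℝ) := by
    rw [hκ, Real.sq_sqrt (by positivity)]; ring
  set M1 : ℝ := 1 / 2 * Real.log (A / c1) with hM1
  set M2 : ℝ := 1 / 2 * Real.log (1 / (T - t0)) with hM2
  set M3 : ℝ := 1 / 2 * Real.log (2 * A / κ ^ 2) with hM3
  refine ⟨max (max M1 M2) M3, ?_⟩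
  set M := max (max M1 M2) M3 with hM
  have hMM1 : M1 ≤ M := (le_max_left _ _).trans (le_max_left _ _)
  have hMM2 : M2 ≤ M := (le_max_right _ _).trans (le_max_left _ _)
  have hMM3 : M3 ≤ M := le_max_right _ _
  intro Λ hΛ0 hΛi hgrow
  have hg := hgr Λ hΛ0 hΛi hgrow
  have hΛint : ∀ a b, s ≤ a → a ≤ b → b < T → IntervalIntegrable Λ volume a b := by
    intro a b ha hab hb
    obtain ⟨d, hd1, hd2⟩ := exists_between hb
    refine (hΛi d ⟨(ha.trans hab).trans_lt hd1, hd2⟩).mono_set ?_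
    rw [uIcc_of_le hab, uIcc_of_le ((ha.trans hab).trans hd1.le)]
    exact Icc_subset_Icc ha hd1.le
  have hmono : ∀ t, t0 ≤ t → t < T → ∫ r in t0..t, Λ r ≤ ∫ r in s..t, Λ r := by
    intro t h1 h2
    have h3 := intervalIntegral.integral_add_adjacent_intervals
      (hΛint s t0 le_rfl hst0 ht0.2) (hΛint t0 t hst0 h1 h2)
    have h4 : 0 ≤ ∫ r in s..t0, Λ r := intervalIntegral.integral_nonneg hst0 fun r _ => hΛ0 r
    linarith
  refine ⟨?_, ?_⟩
  · intro t ht
    have hp : 0 < T - t := by linarith [ht.2]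
    rcases le_or_gt t0 t with h1 | h1
    · have h2 := (hg t ⟨h1, ht.2⟩).1
      have h3 := hmono t h1 ht.2
      have h4 : Real.log (c1 * (T - t)⁻¹) ≤ Real.log (A * Real.exp (2 * ∫ r in t0..t, Λ r)) :=
        Real.log_le_log (by positivity) h2
      rw [Real.log_mul hc1.ne' (by positivity), Real.log_mul hA.ne' (Real.exp_pos _).ne',
        Real.log_exp] at h4
      have h5 : M1 = 1 / 2 * (Real.log A - Real.log c1) := by
        rw [hM1, Real.log_div hA.ne' hc1.ne']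
      rw [one_div (T - t)]
      linarith
    · have h2 : 0 ≤ ∫ r in s..t, Λ r := intervalIntegral.integral_nonneg ht.1.le fun r _ => hΛ0 r
      have h3 : Real.log (1 / (T - t)) ≤ Real.log (1 / (T - t0)) := by
        apply Real.log_le_log (by positivity)
        apply one_div_le_one_div_of_le (by linarith [ht0.2])
        linarith
      linarith
  · intro t1 ht1
    by_contra hcon
    have hcon' : ∀ t, t1 < t → t < T → s < t →
        ∫ r in s..t, Λ r < 3 / 4 * Real.log (1 / (T - t)) - M := by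
      intro t h1 h2 h3
      by_contra h4
      exact hcon ⟨t, ⟨h1, h2⟩, h3, not_lt.1 h4⟩
    apply hB
    obtain ⟨t2, ht2, ht02, ht2'⟩ := exists_t0 (r := 3 / 2 - 5 * α) (B := B) (c1 := κ ^ 2 / 2)
      (by linarith) (by positivity) hT (max_lt ht1 ht0.2)
    refine hcrit ν T u p hν h t2 ht2.1 ht2.2 κ hκ0 hκ2.le ?_
    intro t ht
    have hp : 0 < T - t := by linarith [ht.2]
    have ht1t : t1 < t := ((le_max_left _ _).trans ht02).trans_lt ht.1
    have ht0t : t0 < t := ((le_max_right _ _).trans ht02).trans_lt ht.1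
    have h1 := hcon' t ht1t ht.2 (hst0.trans_lt ht0t)
    have h2 := hmono t ht0t.le ht.2
    have h3 := (hg t ⟨ht0t.le, ht.2⟩).2
    have h4 := ht2' t ⟨ht.1.le, ht.2⟩
    have h5 : A * Real.exp (2 * ∫ r in t0..t, Λ r) ≤ κ ^ 2 / 2 * (T - t) ^ (-(3 / 2) : ℝ) := by
      have h6 : Real.exp (2 * ∫ r in t0..t, Λ r)
          ≤ Real.exp (3 / 2 * Real.log (1 / (T - t)) - Real.log (2 * A / κ ^ 2)) := by
        apply Real.exp_le_exp.2
        have h7 : Real.log (2 * A / κ ^ 2) = 2 * M3 := by rw [hM3]; ring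
        rw [h7]
        linarith
      have h8 : Real.exp (3 / 2 * Real.log (1 / (T - t)) - Real.log (2 * A / κ ^ 2))
          = (T - t) ^ (-(3 / 2) : ℝ) * (κ ^ 2 / (2 * A)) := by
        rw [Real.exp_sub, Real.exp_log (by positivity), one_div, Real.log_inv,
          Real.rpow_def_of_pos hp]
        rw [show 3 / 2 * -Real.log (T - t) = Real.log (T - t) * (-(3 / 2)) by ring]
        field_simp
      rw [h8] at h6
      calc A * Real.exp (2 * ∫ r in t0..t, Λ r)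
          ≤ A * ((T - t) ^ (-(3 / 2) : ℝ) * (κ ^ 2 / (2 * A))) := by gcongr
        _ = κ ^ 2 / 2 * (T - t) ^ (-(3 / 2) : ℝ) := by field_simp
    have h9 : B * (T - t) ^ (-(5 * α)) ≤ κ ^ 2 / 2 * (T - t) ^ (-(3 / 2) : ℝ) := by
      have e : B * (T - t) ^ (-(5 * α))
          = (B * (T - t) ^ (3 / 2 - 5 * α)) * (T - t) ^ (-(3 / 2) : ℝ) := by
        rw [mul_assoc, ← Real.rpow_add hp]
        congr 2; ring
      rw [e]
      exact mul_le_mul_of_nonneg_right h4 (by positivity)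
    linarith

end Pool.Agent.Q176.ES
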